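import Pool.Agent.Q282.WR.S

/-! # Counting the torsors over finite fields -/

namespace Pool.Agent.Q282.WR

open Pool.Agent.Helper449.MST MvPolynomial

/-- the elements of the field with `q_j` elements -/
noncomputable def Bf (j : ℕ) : Finset K :=
  (pts_finite_aux (q j) (Nat.one_lt_pow (Nat.mul_pos (by norm_num) j.factorial_pos).ne'
    (by norm_num))).toFinset

theorem mem_Bf (j : ℕ) (z : K) : z ∈ Bf j ↔ z ^ q j = z := by
  unfold Bf
  rw [Set.Finite.mem_toFinset]
  rfl

theorem card_Bf (j : ℕ) : (Bf j).card = q j := by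
  unfold Bf
  rw [← Set.ncard_eq_toFinset_card _ (pts_finite_aux (q j) (Nat.one_lt_pow
    (Nat.mul_pos (by norm_num) j.factorial_pos).ne' (by norm_num)))]
  exact card_fixed _ (Nat.mul_pos (by norm_num) j.factorial_pos)

theorem zero_mem_Bf (j : ℕ) : (0 : K) ∈ Bf j := by
  rw [mem_Bf, zero_pow (cnt_bij_q_ne j)]

open Classical in
/-- the torsors over the field with `q_j` elements with only the first `M` coordinates nonzero -/
noncomputable def Tor (j M : ℕ) : Finset (ℕ →₀ K) :=
  (Fintype.piFinset fun _ : Fin M => Bf j).image ofFin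

theorem mem_Tor (j M : ℕ) (F : ℕ →₀ K) :
    F ∈ Tor j M ↔ (∀ i, F i ∈ Bf j) ∧ ∀ i, M ≤ i → F i = 0 := by
  classical
  unfold Tor
  rw [Finset.mem_image]
  constructor
  · rintro ⟨x, hx, rfl⟩
    rw [Fintype.mem_piFinset] at hx
    constructor
    · intro i
      rw [ofFin_apply]
      split_ifs with h
      · exact hx _
      · exact zero_mem_Bf j
    · intro i hi
      rw [ofFin_apply, dif_neg (by omega)]
  · rintro ⟨h1, h2⟩
    refine ⟨fun i => F i, Fintype.mem_piFinset.2 fun i => h1 i, ?_⟩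
    ext i
    rw [ofFin_apply]
    split_ifs with h
    · rfl
    · exact (h2 i (by omega)).symm

theorem Tor_mono (j : ℕ) {M M' : ℕ} (h : M ≤ M') : Tor j M ⊆ Tor j M' := by
  intro F hF
  rw [mem_Tor] at hF ⊢
  exact ⟨hF.1, fun i hi => hF.2 i (h.trans hi)⟩

theorem card_Tor (j M : ℕ) : (Tor j M).card = q j ^ M := by
  classical
  unfold Tor
  rw [Finset.card_image_of_injective _ (fun x y h => level_isom_inj x y h),
    Fintype.card_piFinset]
  simp [card_Bf]

open Classical in
theorem cnt_eq (j M : ℕ) (P : (ℕ →₀ K) → Prop) :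
    cnt j {x : Fin M → K | P (ofFin x)} = ((Tor j M).filter P).card := by
  unfold cnt
  have e : pts j {x : Fin M → K | P (ofFin x)} =
      ↑((Fintype.piFinset fun _ : Fin M => Bf j).filter fun x => P (ofFin x)) := by
    ext x
    rw [Finset.coe_filter]
    simp only [pts, Set.mem_setOf_eq, Fintype.mem_piFinset, mem_Bf]
    exact and_comm
  rw [e, Set.ncard_coe_finset]
  have e2 : (Tor j M).filter P =
      ((Fintype.piFinset fun _ : Fin M => Bf j).filter fun x => P (ofFin x)).image ofFin := by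
    unfold Tor
    rw [Finset.filter_image]
  rw [e2, Finset.card_image_of_injective _ (fun x y h => level_isom_inj x y h)]

open Classical in
/-- the number of torsors with `v = a` (for one copy) over the field with `q_j` elements -/
noncomputable def cA (j a : ℕ) : ℕ := ((Tor j (6 * a)).filter fun F => vW F = a).card

open Classical in
theorem cA_eq (j a M : ℕ) (h : 6 * a ≤ M) : ((Tor j M).filter fun F => vW F = a).card = cA j a := by
  unfold cA
  congr 1
  ext F
  rw [Finset.mem_filter, Finset.mem_filter, mem_Tor, mem_Tor]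
  constructor
  · rintro ⟨⟨h1, h2⟩, h3⟩
    exact ⟨⟨h1, fun i hi => support_bound_W F i (by omega)⟩, h3⟩
  · rintro ⟨⟨h1, h2⟩, h3⟩
    exact ⟨⟨h1, fun i hi => h2 i (by omega)⟩, h3⟩

theorem cnt_levelW (j a : ℕ) : cnt j (levelW 7 (27 * 7 * a)) = cA j a := by
  classical
  have e : levelW 7 (27 * 7 * a) = {x : Fin (27 * 7 * a) → K | vW (ofFin x) = a} := by
    ext x
    exact levelW_mem 7 a (by norm_num) x
  rw [e, cnt_eq j (27 * 7 * a) (fun F => vW F = a), ← cA_eq j a (27 * 7 * a) (by omega)]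
  congr!

/-! ### One coordinate -/

/-- the value of a single coordinate -/
noncomputable def m1 (G : ℕ →₀ K) : ℕ := G.support.sup fun k => k / 2 + 1

theorem m1_le_iff (G : ℕ →₀ K) (m : ℕ) : m1 G ≤ m ↔ ∀ k : ℕ, G k ≠ 0 → k < 2 * m := by
  unfold m1
  rw [Finset.sup_le_iff]
  constructor
  · intro h k hG
    have := h k (Finsupp.mem_support_iff.2 hG)
    omega
  · intro h k hk
    rw [Finsupp.mem_support_iff] at hk
    have := h k hk
    omega

/-- the sum over the torsors for one coordinate -/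
noncomputable def P1 (j A : ℕ) (u : ℝ) : ℝ := ∑ G ∈ Tor j (2 * A), u ^ m1 G

theorem P1_zero (j : ℕ) (u : ℝ) : P1 j 0 u = 1 := by
  unfold P1
  have e : Tor j (2 * 0) = {0} := by
    ext F
    rw [mem_Tor, Finset.mem_singleton]
    constructor
    · rintro ⟨-, h⟩
      ext i
      exact h i (by omega)
    · rintro rfl
      exact ⟨fun i => zero_mem_Bf j, fun i _ => rfl⟩
  rw [e, Finset.sum_singleton]
  simp [m1]

theorem P1_succ (j A : ℕ) (u : ℝ) :
    P1 j (A + 1) u = P1 j A u + ((q j : ℝ) ^ (2 * A + 2) - (q j : ℝ) ^ (2 * A)) * u ^ (A + 1) := by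
  classical
  unfold P1
  have hsub : Tor j (2 * A) ⊆ Tor j (2 * (A + 1)) := Tor_mono j (by omega)
  rw [← Finset.sum_sdiff hsub, add_comm]
  congr 1
  have h1 : ∀ G ∈ Tor j (2 * (A + 1)) \ Tor j (2 * A), u ^ m1 G = u ^ (A + 1) := by
    intro G hG
    rw [Finset.mem_sdiff, mem_Tor, mem_Tor] at hG
    obtain ⟨⟨hB, h2⟩, h3⟩ := hG
    congr 1
    apply le_antisymm
    · rw [m1_le_iff]
      intro k hk
      by_contra hc
      exact hk (h2 k (by omega))
    · by_contra hc
      apply h3
      refine ⟨hB, fun i hi => ?_⟩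
      by_contra hne
      have := (m1_le_iff G A).1 (by omega) i hne
      omega
  rw [Finset.sum_congr rfl h1, Finset.sum_const, nsmul_eq_mul, Finset.card_sdiff_of_subset hsub,
    card_Tor, card_Tor, Nat.cast_sub (Nat.pow_le_pow_right (Nat.pos_of_ne_zero (cnt_bij_q_ne j))
      (by omega))]
  push_cast
  ring

/-! ### Three coordinates -/

/-- the `l`-th coordinate of the torsor `F` -/
noncomputable def comp (F : ℕ →₀ K) (l : Fin 3) : ℕ →₀ K :=
  F.comapDomain (fun k => 3 * k + (l : ℕ)) (fun a _ b _ h => by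
    simp only at h
    omega)

theorem comp_apply (F : ℕ →₀ K) (l : Fin 3) (k : ℕ) : comp F l k = F (3 * k + l) := rfl

theorem m1_comp (F : ℕ →₀ K) (l : Fin 3) : m1 (comp F l) = mval F l := by
  have hl := l.2
  apply le_antisymm
  · rw [m1_le_iff]
    intro k hk
    rw [comp_apply] at hk
    have := (mval_le_iff F l _).1 le_rfl (3 * k + l) (by omega) hk
    omega
  · rw [mval_le_iff]
    intro i hi hF
    have := (m1_le_iff (comp F l) _).1 le_rfl (i / 3)
      (by rw [comp_apply, show 3 * (i / 3) + (l : ℕ) = i by omega]; exact hF)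
    omega

open Classical in
theorem sum_cube (j A : ℕ) (u : ℝ) : ∑ F ∈ Tor j (6 * A), u ^ vW F = P1 j A u ^ 3 := by
  have e : P1 j A u ^ 3 = ∏ _l : Fin 3, ∑ G ∈ Tor j (2 * A), u ^ m1 G := by
    rw [Finset.prod_const, Finset.card_univ, Fintype.card_fin]
    rfl
  rw [e, Finset.prod_univ_sum]
  refine Finset.sum_bij' (fun F _ => comp F)
    (fun p _ => ofFin fun i : Fin (6 * A) => p ⟨(i : ℕ) % 3, Nat.mod_lt _ (by norm_num)⟩
      ((i : ℕ) / 3)) ?_ ?_ ?_ ?_ ?_
  · intro F hF
    rw [mem_Tor] at hF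
    rw [Fintype.mem_piFinset]
    intro l
    rw [mem_Tor]
    exact ⟨fun k => hF.1 _, fun k hk => hF.2 (3 * k + (l : ℕ)) (by omega)⟩
  · intro p hp
    rw [Fintype.mem_piFinset] at hp
    rw [mem_Tor]
    constructor
    · intro i
      rw [ofFin_apply]
      split_ifs with h
      · exact ((mem_Tor _ _ _).1 (hp _)).1 _
      · exact zero_mem_Bf j
    · intro i hi
      rw [ofFin_apply, dif_neg (by omega)]
  · intro F hF
    rw [mem_Tor] at hF
    ext i
    rw [ofFin_apply]
    split_ifs with h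
    · show F (3 * (i / 3) + i % 3) = F i
      rw [Nat.div_add_mod]
    · exact (hF.2 i (by omega)).symm
  · intro p hp
    rw [Fintype.mem_piFinset] at hp
    funext l
    ext k
    rw [comp_apply, ofFin_apply]
    have hl := l.2
    split_ifs with h
    · have e1 : (⟨(3 * k + (l : ℕ)) % 3, Nat.mod_lt _ (by norm_num)⟩ : Fin 3) = l := by
        apply Fin.ext
        simp only
        omega
      have e2 : (3 * k + (l : ℕ)) / 3 = k := by omega
      simp only [e1, e2]
    · exact (((mem_Tor _ _ _).1 (hp l)).2 k (by omega)).symm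
  · intro F _
    rw [Finset.prod_pow_eq_pow_sum]
    congr 1
    unfold vW
    exact Finset.sum_congr rfl fun l _ => (m1_comp F l).symm

/-! ### The partial sums -/

/-- the partial sums of the count -/
noncomputable def SA (j n : ℕ) (u : ℝ) : ℝ := ∑ a ∈ Finset.range (n + 1), (cA j a : ℝ) * u ^ a

open Classical in
theorem SA_eq (j n : ℕ) (u : ℝ) :
    SA j n u = ∑ F ∈ (Tor j (6 * n)).filter (fun F => vW F ≤ n), u ^ vW F := by
  unfold SA
  rw [← Finset.sum_fiberwise_of_maps_to (s := (Tor j (6 * n)).filter (fun F => vW F ≤ n))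
    (t := Finset.range (n + 1)) (g := vW)]
  · refine Finset.sum_congr rfl fun a ha => ?_
    rw [Finset.mem_range] at ha
    rw [Finset.sum_congr rfl (g := fun _ => u ^ a), Finset.sum_const, nsmul_eq_mul]
    · congr 2
      rw [← cA_eq j a (6 * n) (by omega), Finset.filter_filter]
      congr 1
      ext F
      rw [Finset.mem_filter, Finset.mem_filter]
      constructor
      · rintro ⟨h1, h2⟩
        exact ⟨h1, by omega, h2⟩
      · rintro ⟨h1, -, h2⟩
        exact ⟨h1, h2⟩
    · intro F hF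
      rw [Finset.mem_filter] at hF
      rw [hF.2]
  · intro F hF
    rw [Finset.mem_filter] at hF
    rw [Finset.mem_range]
    omega

theorem SA_le (j n : ℕ) (u : ℝ) (hu : 0 ≤ u) : SA j n u ≤ P1 j n u ^ 3 := by
  classical
  rw [SA_eq, ← sum_cube]
  exact Finset.sum_le_sum_of_subset_of_nonneg (Finset.filter_subset _ _)
    fun _ _ _ => pow_nonneg hu _

theorem le_SA (j n A : ℕ) (u : ℝ) (hu : 0 ≤ u) (h : 3 * A ≤ n) : P1 j A u ^ 3 ≤ SA j n u := by
  classical
  rw [SA_eq, ← sum_cube]
  refine Finset.sum_le_sum_of_subset_of_nonneg ?_ fun _ _ _ => pow_nonneg hu _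
  intro F hF
  have hF' := (mem_Tor _ _ _).1 hF
  rw [Finset.mem_filter]
  refine ⟨Tor_mono j (by omega) hF, ?_⟩
  have h1 : ∀ l, mval F l ≤ A := by
    intro l
    rw [mval_le_iff]
    intro i _ hne
    by_contra hc
    exact hne (hF'.2 i (by omega))
  have h2 : vW F ≤ ∑ _l : Fin 3, A := Finset.sum_le_sum fun l _ => h1 l
  rw [Finset.sum_const, Finset.card_univ, Fintype.card_fin, smul_eq_mul] at h2
  omega

theorem mu_stringyW (j n : ℕ) :
    mu j (stringyW 7 (27 * 7 * n)) = (q j : ℝ) ^ 42 * SA j n (((q j : ℝ) ^ 7)⁻¹) := by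
  have hy0 : (y j : ℝ) ≠ 0 := by
    unfold y
    positivity
  have hq : (q j : ℝ) = (y j : ℝ) ^ 27 := by
    unfold q y
    push_cast
    rw [← pow_mul]
    congr 1
    ring
  have hof : ∀ g : Gen, mu j (FreeAbelianGroup.of g) = (cnt j g.S : ℝ) * (y j : ℝ) ^ g.b := by
    intro g
    unfold mu
    rw [FreeAbelianGroup.lift_apply_of]
  unfold stringyW
  rw [map_sum]
  have h1 : ∑ b ∈ Finset.range (27 * 7 * n + 1), mu j (FreeAbelianGroup.of
      ⟨b, levelW 7 b, constr_levelW 7 b, 27 * (6 * ((7 : ℕ) : ℤ)) - b⟩) =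
      ∑ b ∈ (Finset.range (n + 1)).image (fun a => 27 * 7 * a), mu j (FreeAbelianGroup.of
      ⟨b, levelW 7 b, constr_levelW 7 b, 27 * (6 * ((7 : ℕ) : ℤ)) - b⟩) := by
    symm
    apply Finset.sum_subset
    · intro b hb
      rw [Finset.mem_image] at hb
      obtain ⟨a, ha, rfl⟩ := hb
      rw [Finset.mem_range] at ha ⊢
      omega
    · intro b hb hb'
      rw [hof]
      have hd : ¬ 27 * 7 ∣ b := by
        rintro ⟨a, rfl⟩
        apply hb'
        rw [Finset.mem_image]
        refine ⟨a, ?_, rfl⟩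
        rw [Finset.mem_range] at hb ⊢
        omega
      have h0 : cnt j (levelW 7 b) = 0 := by
        rw [level_empty 7 b hd]
        unfold cnt pts
        simp
      rw [show cnt j (Gen.S ⟨b, levelW 7 b, constr_levelW 7 b, 27 * (6 * ((7 : ℕ) : ℤ)) - b⟩) = 0
        from h0]
      simp
  rw [h1, Finset.sum_image (fun a _ b _ h => by
    have h' : 27 * 7 * a = 27 * 7 * b := h
    omega)]
  unfold SA
  rw [Finset.mul_sum]
  refine Finset.sum_congr rfl fun a _ => ?_
  rw [hof]
  simp only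
  rw [cnt_levelW, hq]
  have e : (27 * (6 * ((7 : ℕ) : ℤ)) - ((27 * 7 * a : ℕ) : ℤ)) =
      ((27 * 42 : ℕ) : ℤ) + -((27 * 7 * a : ℕ) : ℤ) := by
    push_cast
    ring
  rw [e, zpow_add₀ hy0, zpow_neg, zpow_natCast, zpow_natCast, ← pow_mul, ← pow_mul, inv_pow,
    ← pow_mul]
  ring

end Pool.Agent.Q282.WR
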