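import Pool.Agent.Q282.WR.C

/-! # No finite expression -/

namespace Pool.Agent.Q282.WR

open Pool.Agent.Helper449.MST MvPolynomial

/-! ### The value of the count -/

theorem y_ge (j : ℕ) : (9 : ℝ) ≤ y j := by
  have h : 3 ^ 2 ≤ y j := by
    unfold y
    exact Nat.pow_le_pow_right (by norm_num) (by have := j.factorial_pos; omega)
  calc (9 : ℝ) = ((3 ^ 2 : ℕ) : ℝ) := by norm_num
    _ ≤ y j := Nat.cast_le.2 h

theorem q_eq_y (j : ℕ) : (q j : ℝ) = (y j : ℝ) ^ 27 := by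
  unfold q y
  push_cast
  rw [← pow_mul]
  congr 1
  ring

theorem q_ge (j : ℕ) : (9 : ℝ) ≤ q j := by
  rw [q_eq_y]
  calc (9 : ℝ) ≤ y j := y_ge j
    _ ≤ (y j : ℝ) ^ 27 := le_self_pow₀ (by linarith [y_ge j]) (by norm_num)

/-- the limit of `P1` -/
noncomputable def Pinf (x : ℝ) : ℝ := (x ^ 7 - 1) / (x ^ 2 * (x ^ 5 - 1))

theorem P1_closed (j A : ℕ) : P1 j A (((q j : ℝ) ^ 7)⁻¹) =
    Pinf (q j) - ((q j : ℝ) ^ 2 - 1) / ((q j : ℝ) ^ 2 * (q j : ℝ) ^ (5 * A) * ((q j : ℝ) ^ 5 - 1)) := by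
  have hx := q_ge j
  have h5 : (q j : ℝ) ^ 5 - 1 ≠ 0 := by
    have : (1 : ℝ) < (q j : ℝ) ^ 5 := one_lt_pow₀ (by linarith) (by norm_num)
    linarith
  have hx0 : (q j : ℝ) ≠ 0 := by linarith
  induction A with
  | zero =>
    rw [P1_zero]
    unfold Pinf
    rw [Nat.mul_zero, pow_zero, mul_one, ← sub_div, eq_div_iff (mul_ne_zero (pow_ne_zero _ hx0) h5)]
    ring
  | succ A ih =>
    rw [P1_succ, ih, inv_pow]
    have e1 : ((q j : ℝ) ^ 7) ^ (A + 1) = (q j : ℝ) ^ (2 * A) * (q j : ℝ) ^ (5 * A) * (q j : ℝ) ^ 7 := by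
      rw [← pow_mul, ← pow_add, ← pow_add]
      congr 1
      ring
    have e2 : (q j : ℝ) ^ (5 * (A + 1)) = (q j : ℝ) ^ (5 * A) * (q j : ℝ) ^ 5 := by
      rw [← pow_add]
      congr 1
    have e3 : (q j : ℝ) ^ (2 * A + 2) = (q j : ℝ) ^ (2 * A) * (q j : ℝ) ^ 2 := by
      rw [← pow_add]
    rw [e1, e2, e3]
    have hA : (q j : ℝ) ^ (5 * A) ≠ 0 := pow_ne_zero _ hx0
    have hB : (q j : ℝ) ^ (2 * A) ≠ 0 := pow_ne_zero _ hx0
    generalize (q j : ℝ) ^ (5 * A) = a at hA ⊢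
    generalize (q j : ℝ) ^ (2 * A) = b at hB ⊢
    field_simp
    ring

theorem Pinf_sub (j A : ℕ) : Pinf (q j) - P1 j A (((q j : ℝ) ^ 7)⁻¹) ≤ 1 / (q j : ℝ) ^ (5 * A) ∧
    P1 j A (((q j : ℝ) ^ 7)⁻¹) ≤ Pinf (q j) := by
  have hx := q_ge j
  have h5 : 0 < (q j : ℝ) ^ 5 - 1 := by
    have : (1 : ℝ) < (q j : ℝ) ^ 5 := one_lt_pow₀ (by linarith) (by norm_num)
    linarith
  have h2 : 0 < (q j : ℝ) ^ 2 - 1 := by
    have : (1 : ℝ) < (q j : ℝ) ^ 2 := one_lt_pow₀ (by linarith) (by norm_num)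
    linarith
  have h25 : (q j : ℝ) ^ 2 - 1 ≤ (q j : ℝ) ^ 2 * ((q j : ℝ) ^ 5 - 1) := by
    have h1 : (1 : ℝ) ≤ (q j : ℝ) ^ 5 - 1 := by
      have : (9 : ℝ) ≤ (q j : ℝ) ^ 5 := hx.trans (le_self_pow₀ (by linarith) (by norm_num))
      linarith
    nlinarith
  have hA : 0 < (q j : ℝ) ^ (5 * A) := by positivity
  rw [P1_closed]
  constructor
  · rw [sub_sub_cancel, div_le_div_iff₀ (by positivity) hA]
    nlinarith
  · have : 0 ≤ ((q j : ℝ) ^ 2 - 1) / ((q j : ℝ) ^ 2 * (q j : ℝ) ^ (5 * A) * ((q j : ℝ) ^ 5 - 1)) := by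
      positivity
    linarith

theorem Pinf_le (j : ℕ) : Pinf (q j) ≤ 2 := by
  have hx := q_ge j
  have h5 : 0 < (q j : ℝ) ^ 5 - 1 := by
    have : (1 : ℝ) < (q j : ℝ) ^ 5 := one_lt_pow₀ (by linarith) (by norm_num)
    linarith
  unfold Pinf
  rw [div_le_iff₀ (by positivity)]
  have h7 : (q j : ℝ) ^ 7 = (q j : ℝ) ^ 2 * (q j : ℝ) ^ 5 := by ring
  have h1 : (9 : ℝ) ≤ (q j : ℝ) ^ 5 := hx.trans (le_self_pow₀ (by linarith) (by norm_num))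
  rw [h7]
  have h2 : (0 : ℝ) < (q j : ℝ) ^ 2 := by positivity
  nlinarith

theorem P1_nonneg (j A : ℕ) : 0 ≤ P1 j A (((q j : ℝ) ^ 7)⁻¹) := by
  unfold P1
  exact Finset.sum_nonneg fun _ _ => by positivity

theorem SA_bound (j n A : ℕ) (h : 3 * A ≤ n) :
    |Pinf (q j) ^ 3 - SA j n (((q j : ℝ) ^ 7)⁻¹)| ≤ 12 / (q j : ℝ) ^ (5 * A) := by
  have hu : (0 : ℝ) ≤ ((q j : ℝ) ^ 7)⁻¹ := by positivity
  have h1 := SA_le j n _ hu
  have h2 := le_SA j n A _ hu h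
  obtain ⟨h3, h4⟩ := Pinf_sub j A
  obtain ⟨-, h5⟩ := Pinf_sub j n
  have h6 := Pinf_le j
  have h7 := P1_nonneg j A
  have h8 := P1_nonneg j n
  have h9 : P1 j n (((q j : ℝ) ^ 7)⁻¹) ^ 3 ≤ Pinf (q j) ^ 3 := pow_le_pow_left₀ h8 h5 3
  rw [abs_of_nonneg (by linarith)]
  have h10 : Pinf (q j) ^ 3 - P1 j A (((q j : ℝ) ^ 7)⁻¹) ^ 3 ≤
      12 * (Pinf (q j) - P1 j A (((q j : ℝ) ^ 7)⁻¹)) := by
    generalize P1 j A (((q j : ℝ) ^ 7)⁻¹) = b at h4 h7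
    generalize Pinf (q j) = a at h4 h6
    have e : a ^ 3 - b ^ 3 = (a - b) * (a ^ 2 + a * b + b ^ 2) := by ring
    rw [e, mul_comm 12]
    refine mul_le_mul_of_nonneg_left ?_ (by linarith)
    nlinarith
  have h11 : 12 * (Pinf (q j) - P1 j A (((q j : ℝ) ^ 7)⁻¹)) ≤ 12 * (1 / (q j : ℝ) ^ (5 * A)) := by
    linarith
  rw [mul_one_div] at h11
  linarith

/-- the value of the count of the stringy motive -/
noncomputable def Mval (x : ℝ) : ℝ := x ^ 36 * ((x ^ 7 - 1) / (x ^ 5 - 1)) ^ 3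

theorem Mval_eq (j : ℕ) : Mval (q j) = (q j : ℝ) ^ 42 * Pinf (q j) ^ 3 := by
  have hx := q_ge j
  have h5 : (q j : ℝ) ^ 5 - 1 ≠ 0 := by
    have : (1 : ℝ) < (q j : ℝ) ^ 5 := one_lt_pow₀ (by linarith) (by norm_num)
    linarith
  have hx0 : (q j : ℝ) ≠ 0 := by linarith
  unfold Mval Pinf
  field_simp

theorem mu_stringy_bound (j n m : ℕ) (h : 3 * (42 + m) ≤ n) :
    |Mval (q j) - mu j (stringyW 7 (27 * 7 * n))| ≤ 12 * ((y j : ℝ) ^ m)⁻¹ := by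
  have hx := q_ge j
  have hy := y_ge j
  have h1 := SA_bound j n (42 + m) h
  rw [Mval_eq, mu_stringyW, ← mul_sub, abs_mul, abs_of_nonneg (by positivity : (0 : ℝ) ≤ (q j : ℝ) ^ 42)]
  have h2 : (q j : ℝ) ^ 42 * |Pinf (q j) ^ 3 - SA j n (((q j : ℝ) ^ 7)⁻¹)| ≤
      (q j : ℝ) ^ 42 * (12 / (q j : ℝ) ^ (5 * (42 + m))) :=
    mul_le_mul_of_nonneg_left h1 (by positivity)
  refine h2.trans ?_
  have h3 : (q j : ℝ) ^ 42 * (y j : ℝ) ^ m ≤ (q j : ℝ) ^ (5 * (42 + m)) := by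
    have h4 : (y j : ℝ) ^ m ≤ (q j : ℝ) ^ m := by
      refine pow_le_pow_left₀ (by linarith) ?_ m
      rw [q_eq_y]
      exact le_self_pow₀ (by linarith) (by norm_num)
    calc (q j : ℝ) ^ 42 * (y j : ℝ) ^ m ≤ (q j : ℝ) ^ 42 * (q j : ℝ) ^ m :=
          mul_le_mul_of_nonneg_left h4 (by positivity)
      _ = (q j : ℝ) ^ (42 + m) := (pow_add _ _ _).symm
      _ ≤ (q j : ℝ) ^ (5 * (42 + m)) := pow_le_pow_right₀ (by linarith) (by omega)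
  have hym : (0 : ℝ) < (y j : ℝ) ^ m := by positivity
  have hqm : (0 : ℝ) < (q j : ℝ) ^ (5 * (42 + m)) := by positivity
  rw [← mul_div_assoc, ← div_eq_mul_inv, div_le_div_iff₀ hqm hym]
  nlinarith

/-! ### The count of arbitrary elements -/

theorem mu_of (j : ℕ) (g : Gen) :
    mu j (FreeAbelianGroup.of g) = (cnt j g.S : ℝ) * (y j : ℝ) ^ g.b := by
  unfold mu
  rw [FreeAbelianGroup.lift_apply_of]

theorem mu_shift (j : ℕ) (b : ℤ) (x : FreeAbelianGroup Gen) :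
    mu j (shift b x) = (y j : ℝ) ^ b * mu j x := by
  have hy : (y j : ℝ) ≠ 0 := by
    have := y_ge j
    linarith
  have h : (mu j).comp (shift b) = (AddMonoidHom.mulLeft ((y j : ℝ) ^ b)).comp (mu j) := by
    ext g
    simp only [AddMonoidHom.comp_apply, AddMonoidHom.coe_mulLeft, shift, mu,
      FreeAbelianGroup.lift_apply_of]
    rw [zpow_add₀ hy]
    ring
  exact DFunLike.congr_fun h x

theorem cnt_le (j : ℕ) {n : ℕ} (S : Set (Fin n → K)) : cnt j S ≤ q j ^ n := by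
  rw [← cnt_univ n j]
  exact Set.ncard_le_ncard (fun x hx => ⟨Set.mem_univ x, hx.2⟩) (pts_finite j _)

theorem mu_growth (x : FreeAbelianGroup Gen) :
    ∃ (C : ℝ) (D : ℕ), 0 ≤ C ∧ ∀ j, |mu j x| ≤ C * (y j : ℝ) ^ D := by
  have hgen : ∀ g : Gen, ∃ (C : ℝ) (D : ℕ), 0 ≤ C ∧
      ∀ j, |mu j (FreeAbelianGroup.of g)| ≤ C * (y j : ℝ) ^ D := by
    intro g
    refine ⟨1, 27 * g.n + g.b.toNat, zero_le_one, fun j => ?_⟩
    have hy := y_ge j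
    rw [mu_of, one_mul, abs_of_nonneg (by positivity), pow_add]
    have h1 : (cnt j g.S : ℝ) ≤ (y j : ℝ) ^ (27 * g.n) := by
      rw [pow_mul, ← q_eq_y]
      exact_mod_cast cnt_le j g.S
    have h2 : (y j : ℝ) ^ g.b ≤ (y j : ℝ) ^ g.b.toNat := by
      rw [← zpow_natCast]
      exact zpow_le_zpow_right₀ (by linarith) (Int.self_le_toNat _)
    exact mul_le_mul h1 h2 (by positivity) (by positivity)
  induction x using FreeAbelianGroup.induction_on with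
  | zero => exact ⟨0, 0, le_rfl, fun j => by rw [map_zero, abs_zero, zero_mul]⟩
  | of g => exact hgen g
  | neg g _ =>
    obtain ⟨C, D, hC, h⟩ := hgen g
    exact ⟨C, D, hC, fun j => by rw [map_neg, abs_neg]; exact h j⟩
  | add a b ha hb =>
    obtain ⟨C, D, hC, h⟩ := ha
    obtain ⟨C', D', hC', h'⟩ := hb
    refine ⟨C + C', D + D', add_nonneg hC hC', fun j => ?_⟩
    have hy := y_ge j
    rw [map_add, add_mul]
    refine (abs_add_le _ _).trans (add_le_add ((h j).trans ?_) ((h' j).trans ?_))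
    · exact mul_le_mul_of_nonneg_left (pow_le_pow_right₀ (by linarith) (by omega)) hC
    · exact mul_le_mul_of_nonneg_left (pow_le_pow_right₀ (by linarith) (by omega)) hC'

theorem mu_int (x : FreeAbelianGroup Gen) :
    ∃ E : ℕ, ∀ j, ∃ z : ℤ, mu j x * (y j : ℝ) ^ E = z := by
  have hgen : ∀ g : Gen, ∃ E : ℕ, ∀ j, ∃ z : ℤ,
      mu j (FreeAbelianGroup.of g) * (y j : ℝ) ^ E = z := by
    intro g
    refine ⟨g.b.natAbs, fun j => ⟨(cnt j g.S : ℤ) * (y j : ℤ) ^ (g.b + g.b.natAbs).toNat, ?_⟩⟩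
    have hy : (y j : ℝ) ≠ 0 := by
      have := y_ge j
      linarith
    have h0 : ((g.b + (g.b.natAbs : ℤ)).toNat : ℤ) = g.b + (g.b.natAbs : ℤ) :=
      Int.toNat_of_nonneg (by omega)
    generalize (g.b + (g.b.natAbs : ℤ)).toNat = k at h0 ⊢
    rw [mu_of, mul_assoc, ← zpow_natCast (y j : ℝ) g.b.natAbs, ← zpow_add₀ hy, ← h0, zpow_natCast]
    push_cast
    ring
  induction x using FreeAbelianGroup.induction_on with
  | zero => exact ⟨0, fun j => ⟨0, by rw [map_zero, zero_mul, Int.cast_zero]⟩⟩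
  | of g => exact hgen g
  | neg g _ =>
    obtain ⟨E, h⟩ := hgen g
    refine ⟨E, fun j => ?_⟩
    obtain ⟨z, hz⟩ := h j
    exact ⟨-z, by rw [map_neg, neg_mul, hz, Int.cast_neg]⟩
  | add a b ha hb =>
    obtain ⟨E, h⟩ := ha
    obtain ⟨E', h'⟩ := hb
    refine ⟨E + E', fun j => ?_⟩
    obtain ⟨z, hz⟩ := h j
    obtain ⟨z', hz'⟩ := h' j
    refine ⟨z * (y j : ℤ) ^ E' + z' * (y j : ℤ) ^ E, ?_⟩
    push_cast
    rw [← hz, ← hz', map_add, pow_add]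
    ring

theorem shift_mem_Fil (m : ℤ) (x : FreeAbelianGroup Gen) (hx : x ∈ Fil m) :
    shift (27 * m) x ∈ Fil 0 := by
  have hle : Fil m ≤ (Fil 0).comap (shift (27 * m)) := by
    conv_lhs => unfold Fil
    rw [AddSubgroup.closure_le]
    rintro x ⟨g, D, h1, h2, rfl⟩
    rw [SetLike.mem_coe, AddSubgroup.mem_comap]
    unfold shift
    rw [FreeAbelianGroup.lift_apply_of]
    apply AddSubgroup.subset_closure
    exact ⟨⟨g.n, g.S, g.constr, g.b + 27 * m⟩, D, h1, by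
      show 27 * (D : ℤ) + (g.b + 27 * m) ≤ -(27 * 0)
      omega, rfl⟩
  exact hle hx

theorem mu_Fil (m : ℕ) (x : FreeAbelianGroup Gen) (hx : x ∈ Fil m) :
    ∃ (C : ℝ) (j₀ : ℕ), 0 ≤ C ∧ ∀ j ≥ j₀, |mu j x| ≤ C * ((y j : ℝ) ^ m)⁻¹ := by
  obtain ⟨C, j₀, h⟩ := mu_fil _ (shift_mem_Fil m x hx)
  refine ⟨max C 0, j₀, le_max_right _ _, fun j hj => ?_⟩
  have hy := y_ge j
  have h1 := h j hj
  rw [mu_shift, abs_mul] at h1
  have h2 : (y j : ℝ) ^ (27 * (m : ℤ)) = (y j : ℝ) ^ (27 * m) := by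
    rw [show (27 * (m : ℤ)) = ((27 * m : ℕ) : ℤ) by push_cast; ring, zpow_natCast]
  rw [h2, abs_of_nonneg (by positivity)] at h1
  have hym : (0 : ℝ) < (y j : ℝ) ^ m := by positivity
  rw [← div_eq_mul_inv, le_div_iff₀ hym]
  have h3 : (y j : ℝ) ^ m ≤ (y j : ℝ) ^ (27 * m) := pow_le_pow_right₀ (by linarith) (by omega)
  calc |mu j x| * (y j : ℝ) ^ m ≤ |mu j x| * (y j : ℝ) ^ (27 * m) :=
        mul_le_mul_of_nonneg_left h3 (abs_nonneg _)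
    _ = (y j : ℝ) ^ (27 * m) * |mu j x| := mul_comm _ _
    _ ≤ C := h1
    _ ≤ max C 0 := le_max_left _ _

/-! ### Finite expressions -/

/-- The partial sums `∑_i ∑_{1 ≤ r ≤ n} x_i L^{-r a_i}`, `a_i = α_i / 27`, of
`∑_i x_i / (L^{a_i} - 1)`. -/
noncomputable def exprSum {k : ℕ} (x : Fin k → FreeAbelianGroup Gen) (α : Fin k → ℕ) (n : ℕ) :
    FreeAbelianGroup Gen :=
  ∑ i, ∑ r ∈ Finset.range n, shift (-((α i : ℤ) * ((r : ℤ) + 1))) (x i)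

/-- The limit of `s` in the completion of the quotient by `R` is a finite sum
`∑_i x_i / (L^{a_i} - 1)` with `a_i ∈ (1/27) ℤ_{>0}`, `a_i = α_i / 27`, and elements `x_i`. -/
def FiniteExprMod (R : AddSubgroup (FreeAbelianGroup Gen)) (s : ℕ → FreeAbelianGroup Gen) : Prop :=
  ∃ (k : ℕ) (x : Fin k → FreeAbelianGroup Gen) (α : Fin k → ℕ), (∀ i, 1 ≤ α i) ∧
    ∀ m : ℤ, ∃ n₀, ∀ n ≥ n₀, s n - exprSum x α n ∈ R ⊔ Fil m

theorem geom (w : ℝ) (hw : 1 < w) (n : ℕ) :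
    ∑ r ∈ Finset.range n, (w ^ (r + 1))⁻¹ = (1 - (w ^ n)⁻¹) / (w - 1) := by
  have h1 : w - 1 ≠ 0 := by linarith
  have h0 : w ≠ 0 := by linarith
  induction n with
  | zero => simp
  | succ n ih =>
    rw [Finset.sum_range_succ, ih, pow_succ]
    have : w ^ n ≠ 0 := pow_ne_zero _ h0
    field_simp
    ring

theorem mu_exprSum {k : ℕ} (x : Fin k → FreeAbelianGroup Gen) (α : Fin k → ℕ)
    (hα : ∀ i, 1 ≤ α i) (n j : ℕ) : mu j (exprSum x α n) =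
      ∑ i, mu j (x i) * ((1 - (((y j : ℝ) ^ α i) ^ n)⁻¹) / ((y j : ℝ) ^ α i - 1)) := by
  have hy := y_ge j
  unfold exprSum
  rw [map_sum]
  refine Finset.sum_congr rfl fun i _ => ?_
  rw [map_sum, ← geom _ (one_lt_pow₀ (by linarith) (by have := hα i; omega)), Finset.mul_sum]
  refine Finset.sum_congr rfl fun r _ => ?_
  rw [mu_shift, mul_comm, zpow_neg]
  congr 2
  rw [← pow_mul, ← zpow_natCast]
  push_cast
  rfl

/-- The comparison of the counts. -/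
theorem main_est {k : ℕ} (x : Fin k → FreeAbelianGroup Gen) (α : Fin k → ℕ)
    (hα : ∀ i, 1 ≤ α i)
    (h : ∀ m : ℤ, ∃ n₀, ∀ n ≥ n₀, stringyW 7 n - exprSum x α n ∈ relSubUH ⊔ Fil m) (m : ℕ) :
    ∃ (C : ℝ) (j₀ : ℕ), 0 ≤ C ∧ ∀ j ≥ j₀,
      |Mval (q j) - ∑ i, mu j (x i) / ((y j : ℝ) ^ α i - 1)| ≤ C * ((y j : ℝ) ^ m)⁻¹ := by
  obtain ⟨n₀, hn₀⟩ := h m
  choose C D hC hCD using fun i => mu_growth (x i)
  have hD : ∀ i, D i ≤ ∑ i, D i := fun i =>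
    Finset.single_le_sum (f := D) (fun _ _ => Nat.zero_le _) (Finset.mem_univ i)
  obtain ⟨n, hn⟩ : ∃ n, n = n₀ + ∑ i, D i + m + 3 * (42 + m) := ⟨_, rfl⟩
  obtain ⟨r, hr, f, hf, hrf⟩ := AddSubgroup.mem_sup.1 (hn₀ (27 * 7 * n) (by omega))
  obtain ⟨j₁, hj₁⟩ := mu_relUH r hr
  obtain ⟨C₂, j₂, hC₂, hj₂⟩ := mu_Fil m f hf
  refine ⟨12 + C₂ + ∑ i, C i, max j₁ j₂,
    add_nonneg (by positivity) (Finset.sum_nonneg fun i _ => hC i), fun j hj => ?_⟩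
  have hy := y_ge j
  have h1 := mu_stringy_bound j n m (by omega)
  have h2 : |mu j (stringyW 7 (27 * 7 * n)) - mu j (exprSum x α (27 * 7 * n))| ≤
      C₂ * ((y j : ℝ) ^ m)⁻¹ := by
    rw [← map_sub, ← hrf, map_add, hj₁ j ((le_max_left _ _).trans hj), zero_add]
    exact hj₂ j ((le_max_right _ _).trans hj)
  have h3 : |mu j (exprSum x α (27 * 7 * n)) - ∑ i, mu j (x i) / ((y j : ℝ) ^ α i - 1)| ≤
      (∑ i, C i) * ((y j : ℝ) ^ m)⁻¹ := by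
    rw [mu_exprSum x α hα, ← Finset.sum_sub_distrib, Finset.sum_mul]
    refine (Finset.abs_sum_le_sum_abs _ _).trans (Finset.sum_le_sum fun i _ => ?_)
    have hαi := hα i
    have hw : (9 : ℝ) ≤ (y j : ℝ) ^ α i := hy.trans (le_self_pow₀ (by linarith) (by omega))
    have e : mu j (x i) * ((1 - (((y j : ℝ) ^ α i) ^ (27 * 7 * n))⁻¹) / ((y j : ℝ) ^ α i - 1)) -
        mu j (x i) / ((y j : ℝ) ^ α i - 1) =
        -(mu j (x i) * ((((y j : ℝ) ^ α i) ^ (27 * 7 * n))⁻¹ / ((y j : ℝ) ^ α i - 1))) := by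
      ring
    rw [e, abs_neg, abs_mul]
    have hpos : 0 ≤ (((y j : ℝ) ^ α i) ^ (27 * 7 * n))⁻¹ / ((y j : ℝ) ^ α i - 1) := by
      apply div_nonneg (by positivity)
      linarith
    rw [abs_of_nonneg hpos]
    have h4 : (((y j : ℝ) ^ α i) ^ (27 * 7 * n))⁻¹ / ((y j : ℝ) ^ α i - 1) ≤
        ((y j : ℝ) ^ (D i + m))⁻¹ := by
      refine (div_le_self (by positivity) (by linarith)).trans ?_
      apply inv_anti₀ (by positivity)
      rw [← pow_mul]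
      refine pow_le_pow_right₀ (by linarith) ?_
      have h5 := hD i
      have h6 : 27 * 7 * n ≤ α i * (27 * 7 * n) := Nat.le_mul_of_pos_left _ (by omega)
      omega
    calc |mu j (x i)| * ((((y j : ℝ) ^ α i) ^ (27 * 7 * n))⁻¹ / ((y j : ℝ) ^ α i - 1)) ≤
          (C i * (y j : ℝ) ^ D i) * ((y j : ℝ) ^ (D i + m))⁻¹ :=
          mul_le_mul (hCD i j) h4 hpos (mul_nonneg (hC i) (by positivity))
      _ = C i * ((y j : ℝ) ^ m)⁻¹ := by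
          have : (y j : ℝ) ≠ 0 := by linarith
          rw [pow_add]
          field_simp
  have h5 : Mval (q j) - ∑ i, mu j (x i) / ((y j : ℝ) ^ α i - 1) =
      (Mval (q j) - mu j (stringyW 7 (27 * 7 * n))) +
      (mu j (stringyW 7 (27 * 7 * n)) - mu j (exprSum x α (27 * 7 * n))) +
      (mu j (exprSum x α (27 * 7 * n)) - ∑ i, mu j (x i) / ((y j : ℝ) ^ α i - 1)) := by ring
  rw [h5, add_mul, add_mul]
  exact (abs_add_le _ _).trans (add_le_add ((abs_add_le _ _).trans (add_le_add h1 h2)) h3)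

/-! ### Divisibility -/

theorem one_add_pow (t : ℤ) (B : ℕ) : ∃ c : ℤ, (1 + t) ^ B = 1 + B * t + t ^ 2 * c := by
  induction B with
  | zero => exact ⟨0, by simp⟩
  | succ B ih =>
    obtain ⟨c, hc⟩ := ih
    refine ⟨B + c * (1 + t), ?_⟩
    rw [pow_succ, hc]
    push_cast
    ring

theorem no_dvd (X U : ℤ) (B : ℕ) (hB : 1 ≤ B) (hX : 2 ≤ X)
    (hU : IsCoprime (X ^ 4 + X ^ 3 + X ^ 2 + X + 1) U)
    (hbig : 5 * (B : ℤ) < X ^ 4 + X ^ 3 + X ^ 2 + X + 1) :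
    ¬ (X ^ 5 - 1) ^ 3 ∣ U * (X ^ 7 - 1) ^ 3 * (X ^ (5 * B) - 1) := by
  intro h
  obtain ⟨Φ, hΦ⟩ : ∃ Φ, Φ = X ^ 4 + X ^ 3 + X ^ 2 + X + 1 := ⟨_, rfl⟩
  obtain ⟨Ψ, hΨ⟩ : ∃ Ψ, Ψ = X ^ 6 + X ^ 5 + X ^ 4 + X ^ 3 + X ^ 2 + X + 1 := ⟨_, rfl⟩
  rw [← hΦ] at hU hbig
  have e5 : X ^ 5 - 1 = (X - 1) * Φ := by rw [hΦ]; ring
  have e7 : X ^ 7 - 1 = (X - 1) * Ψ := by rw [hΨ]; ring
  have hcop : IsCoprime Φ Ψ := ⟨1 + X ^ 2 * (X ^ 3 + X), -(X ^ 3 + X), by rw [hΦ, hΨ]; ring⟩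
  have h1 : (X - 1) ^ 3 * Φ ^ 3 ∣ (X - 1) ^ 3 * (U * Ψ ^ 3 * (X ^ (5 * B) - 1)) := by
    have e1 : (X ^ 5 - 1) ^ 3 = (X - 1) ^ 3 * Φ ^ 3 := by rw [e5]; ring
    have e2 : U * (X ^ 7 - 1) ^ 3 * (X ^ (5 * B) - 1) =
        (X - 1) ^ 3 * (U * Ψ ^ 3 * (X ^ (5 * B) - 1)) := by rw [e7]; ring
    rwa [e1, e2] at h
  have h2 : Φ ^ 3 ∣ U * Ψ ^ 3 * (X ^ (5 * B) - 1) :=
    (mul_dvd_mul_iff_left (pow_ne_zero 3 (by omega : X - 1 ≠ 0))).1 h1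
  have hc2 : IsCoprime (Φ ^ 3) (U * Ψ ^ 3) :=
    (IsCoprime.mul_right hU (hcop.pow_right)).pow_left
  have h3 : Φ ^ 3 ∣ X ^ (5 * B) - 1 := hc2.dvd_of_dvd_mul_left h2
  obtain ⟨c, hc⟩ := one_add_pow ((X - 1) * Φ) B
  have e3 : X ^ (5 * B) = (1 + (X - 1) * Φ) ^ B := by
    rw [pow_mul, ← e5]
    congr 1
    ring
  have hΦ0 : 0 < Φ := by
    rw [hΦ]
    positivity
  have h4 : Φ * Φ ∣ Φ * (B * (X - 1) + (X - 1) ^ 2 * c * Φ) := by
    have h5 : Φ * Φ ∣ X ^ (5 * B) - 1 := (Dvd.intro (Φ) (by ring)).trans h3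
    rw [e3, hc] at h5
    have e4 : 1 + (B : ℤ) * ((X - 1) * Φ) + ((X - 1) * Φ) ^ 2 * c - 1 =
      Φ * (B * (X - 1) + (X - 1) ^ 2 * c * Φ) := by ring
    rwa [e4] at h5
  have h5 : Φ ∣ B * (X - 1) + (X - 1) ^ 2 * c * Φ := (mul_dvd_mul_iff_left hΦ0.ne').1 h4
  have h6 : Φ ∣ B * (X - 1) := (dvd_add_left (Dvd.intro_left _ rfl)).1 h5
  have h7 : Φ ∣ 5 * (B : ℤ) := by
    have h8 : Φ ∣ B * (X - 1) * (X ^ 3 + 2 * X ^ 2 + 3 * X + 4) := h6.mul_right _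
    have h9 : Φ ∣ B * Φ := Dvd.intro_left _ rfl
    have h10 := dvd_sub h9 h8
    have e5 : (B : ℤ) * Φ - B * (X - 1) * (X ^ 3 + 2 * X ^ 2 + 3 * X + 4) = 5 * B := by
      rw [hΦ]
      ring
    rwa [e5] at h10
  have h8 := Int.le_of_dvd (by omega) h7
  omega

/-! ### The contradiction -/

theorem y_tendsto (C : ℝ) : ∃ j₀, ∀ j ≥ j₀, C < y j := by
  obtain ⟨n, hn⟩ := exists_nat_gt C
  refine ⟨n, fun j hj => hn.trans_le ?_⟩
  have h1 : n ≤ y j := by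
    have h2 : j ≤ j.factorial := Nat.self_le_factorial j
    have h3 : j < 3 ^ j := Nat.lt_pow_self (by norm_num)
    have h4 : 3 ^ j ≤ y j := Nat.pow_le_pow_right (by norm_num) (by omega)
    omega
  exact_mod_cast h1

theorem not_finiteExpr : ¬ FiniteExprMod relSubUH (stringyW 7) := by
  rintro ⟨k, x, α, hα, h⟩
  choose E hE using fun i => mu_int (x i)
  obtain ⟨Et, hEt⟩ : ∃ Et, Et = ∑ i, E i := ⟨_, rfl⟩
  have hEi : ∀ i, E i ≤ Et := fun i => by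
    rw [hEt]
    exact Finset.single_le_sum (f := E) (fun _ _ => Nat.zero_le _) (Finset.mem_univ i)
  obtain ⟨B, hB⟩ : ∃ B, B = ∏ i, α i := ⟨_, rfl⟩
  have hB1 : 1 ≤ B := by
    rw [hB]
    exact Nat.one_le_iff_ne_zero.2 (Finset.prod_ne_zero_iff.2 fun i _ => by
      have := hα i
      omega)
  have hdiv : ∀ i, α i ∣ 27 * (5 * B) := fun i => by
    rw [hB]
    exact ((Finset.dvd_prod_of_mem α (Finset.mem_univ i)).mul_left 5).mul_left 27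
  obtain ⟨C, j₁, hC, hest⟩ := main_est x α hα h (Et + 27 * 15 + 27 * (5 * B) + 1)
  obtain ⟨j₂, hj₂⟩ := y_tendsto (max C (5 * B))
  obtain ⟨j, hj⟩ : ∃ j, j = max j₁ j₂ := ⟨_, rfl⟩
  have hy := y_ge j
  have hx := q_ge j
  have hest' := hest j (by rw [hj]; exact le_max_left _ _)
  have hyC := hj₂ j (by rw [hj]; exact le_max_right _ _)
  have hqy := q_eq_y j
  -- the integer
  have hint : ∀ i, ∃ z : ℤ, (y j : ℝ) ^ Et * ((q j : ℝ) ^ (5 * B) - 1) *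
      (mu j (x i) / ((y j : ℝ) ^ α i - 1)) = z := by
    intro i
    obtain ⟨z, hz⟩ := hE i j
    obtain ⟨c, hc⟩ := hdiv i
    have hd : ((y j : ℤ) ^ α i - 1) ∣ ((y j : ℤ) ^ α i) ^ c - 1 := by
      have := sub_dvd_pow_sub_pow ((y j : ℤ) ^ α i) 1 c
      rwa [one_pow] at this
    obtain ⟨d, hd⟩ := hd
    refine ⟨z * (y j : ℤ) ^ (Et - E i) * d, ?_⟩
    have hw : (9 : ℝ) ≤ (y j : ℝ) ^ α i := hy.trans (le_self_pow₀ (by linarith)
      (by have := hα i; omega))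
    have hw1 : (y j : ℝ) ^ α i - 1 ≠ 0 := by linarith
    have e1 : (q j : ℝ) ^ (5 * B) - 1 = ((y j : ℝ) ^ α i - 1) * d := by
      have hd' : (((y j : ℝ) ^ α i) ^ c - 1) = ((y j : ℝ) ^ α i - 1) * d := by exact_mod_cast hd
      rw [← hd', hqy, ← pow_mul, hc, ← pow_mul]
    have e2 : (y j : ℝ) ^ Et = (y j : ℝ) ^ E i * (y j : ℝ) ^ (Et - E i) := by
      rw [← pow_add, Nat.add_sub_cancel' (hEi i)]
    rw [e1, e2]
    push_cast
    rw [← hz]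
    field_simp
  choose z hz using hint
  obtain ⟨Z, hZ⟩ : ∃ Z : ℤ, Z = (y j : ℤ) ^ Et * (q j : ℤ) ^ 36 * ((q j : ℤ) ^ 7 - 1) ^ 3 *
      ((q j : ℤ) ^ (5 * B) - 1) - ((q j : ℤ) ^ 5 - 1) ^ 3 * ∑ i, z i := ⟨_, rfl⟩
  have h5 : (q j : ℝ) ^ 5 - 1 ≠ 0 := by
    have : (1 : ℝ) < (q j : ℝ) ^ 5 := one_lt_pow₀ (by linarith) (by norm_num)
    linarith
  have hZr : (Z : ℝ) = (y j : ℝ) ^ Et * ((q j : ℝ) ^ 5 - 1) ^ 3 * ((q j : ℝ) ^ (5 * B) - 1) *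
      (Mval (q j) - ∑ i, mu j (x i) / ((y j : ℝ) ^ α i - 1)) := by
    rw [hZ]
    push_cast
    simp_rw [← hz]
    rw [← Finset.mul_sum, Mval, mul_sub]
    field_simp
  have hZ0 : Z = 0 := by
    have h6 : |(Z : ℝ)| < 1 := by
      rw [hZr, abs_mul]
      have hA : 0 ≤ (y j : ℝ) ^ Et * ((q j : ℝ) ^ 5 - 1) ^ 3 * ((q j : ℝ) ^ (5 * B) - 1) := by
        have h1 : 0 ≤ (q j : ℝ) ^ 5 - 1 := by
          have : (1 : ℝ) ≤ (q j : ℝ) ^ 5 := one_le_pow₀ (by linarith)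
          linarith
        have h2 : 0 ≤ (q j : ℝ) ^ (5 * B) - 1 := by
          have : (1 : ℝ) ≤ (q j : ℝ) ^ (5 * B) := one_le_pow₀ (by linarith)
          linarith
        positivity
      have hA2 : (y j : ℝ) ^ Et * ((q j : ℝ) ^ 5 - 1) ^ 3 * ((q j : ℝ) ^ (5 * B) - 1) ≤
          (y j : ℝ) ^ (Et + 27 * 15 + 27 * (5 * B)) := by
        have h1 : 0 ≤ (q j : ℝ) ^ 5 - 1 := by
          have : (1 : ℝ) ≤ (q j : ℝ) ^ 5 := one_le_pow₀ (by linarith)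
          linarith
        have h2 : ((q j : ℝ) ^ 5 - 1) ^ 3 ≤ ((q j : ℝ) ^ 5) ^ 3 :=
          pow_le_pow_left₀ h1 (by linarith) 3
        have h3 : (q j : ℝ) ^ (5 * B) - 1 ≤ (q j : ℝ) ^ (5 * B) := by linarith
        calc (y j : ℝ) ^ Et * ((q j : ℝ) ^ 5 - 1) ^ 3 * ((q j : ℝ) ^ (5 * B) - 1) ≤
            (y j : ℝ) ^ Et * ((q j : ℝ) ^ 5 - 1) ^ 3 * (q j : ℝ) ^ (5 * B) :=
              mul_le_mul_of_nonneg_left h3 (by positivity)
          _ ≤ (y j : ℝ) ^ Et * ((q j : ℝ) ^ 5) ^ 3 * (q j : ℝ) ^ (5 * B) :=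
              mul_le_mul_of_nonneg_right (mul_le_mul_of_nonneg_left h2 (by positivity))
                (by positivity)
          _ = (y j : ℝ) ^ (Et + 27 * 15 + 27 * (5 * B)) := by
              rw [hqy, ← pow_mul, ← pow_mul, ← pow_mul, ← pow_add, ← pow_add]
      rw [abs_of_nonneg hA]
      have hypos : (0 : ℝ) < (y j : ℝ) := by linarith
      calc (y j : ℝ) ^ Et * ((q j : ℝ) ^ 5 - 1) ^ 3 * ((q j : ℝ) ^ (5 * B) - 1) *
            |Mval (q j) - ∑ i, mu j (x i) / ((y j : ℝ) ^ α i - 1)| ≤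
            (y j : ℝ) ^ (Et + 27 * 15 + 27 * (5 * B)) *
              (C * ((y j : ℝ) ^ (Et + 27 * 15 + 27 * (5 * B) + 1))⁻¹) :=
            mul_le_mul hA2 hest' (abs_nonneg _) (by positivity)
        _ = C / (y j : ℝ) := by
            rw [pow_succ]
            field_simp
        _ < 1 := by
            rw [div_lt_one hypos]
            exact (le_max_left _ _).trans_lt hyC
    have h7 : |Z| < 1 := by exact_mod_cast h6
    exact Int.abs_lt_one_iff.1 h7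
  have hdvd : ((q j : ℤ) ^ 5 - 1) ^ 3 ∣ ((y j : ℤ) ^ Et * (q j : ℤ) ^ 36) *
      ((q j : ℤ) ^ 7 - 1) ^ 3 * ((q j : ℤ) ^ (5 * B) - 1) := by
    refine ⟨∑ i, z i, ?_⟩
    rw [hZ0] at hZ
    linarith
  have hyq : (q j : ℤ) = (y j : ℤ) ^ 27 := by exact_mod_cast hqy
  have hy9 : (9 : ℤ) ≤ y j := by exact_mod_cast hy
  have hyle : (y j : ℤ) ≤ q j := by
    rw [hyq]
    exact le_self_pow₀ (by omega) (by norm_num)
  refine no_dvd (q j) ((y j : ℤ) ^ Et * (q j : ℤ) ^ 36) B hB1 (by omega) ?_ ?_ hdvd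
  · have hc : IsCoprime ((q j : ℤ) ^ 4 + (q j : ℤ) ^ 3 + (q j : ℤ) ^ 2 + q j + 1) (q j : ℤ) :=
      ⟨1, -((q j : ℤ) ^ 3 + (q j : ℤ) ^ 2 + q j + 1), by ring⟩
    have hc2 : IsCoprime ((q j : ℤ) ^ 4 + (q j : ℤ) ^ 3 + (q j : ℤ) ^ 2 + q j + 1) (y j : ℤ) :=
      hc.of_isCoprime_of_dvd_right (by rw [hyq]; exact dvd_pow_self _ (by norm_num))
    exact (hc2.pow_right).mul_right hc.pow_right
  · have h1 : (5 * B : ℝ) < y j := (le_max_right _ _).trans_lt hyC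
    have h2 : 5 * (B : ℤ) < y j := by exact_mod_cast h1
    have h3 : (0 : ℤ) ≤ (q j : ℤ) ^ 4 + (q j : ℤ) ^ 3 + (q j : ℤ) ^ 2 := by positivity
    linarith

theorem finiteExpr_mono {R R' : AddSubgroup (FreeAbelianGroup Gen)} (h : R ≤ R')
    (s : ℕ → FreeAbelianGroup Gen) (hs : FiniteExprMod R s) : FiniteExprMod R' s := by
  obtain ⟨k, x, α, hα, hm⟩ := hs
  refine ⟨k, x, α, hα, fun m => ?_⟩
  obtain ⟨n₀, hn⟩ := hm m
  exact ⟨n₀, fun n hn' => sup_le_sup_right h _ (hn n hn')⟩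

end Pool.Agent.Q282.WR
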