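import Pool.Agent.Q282.WR.N

/-! # The representation -/

namespace Pool.Agent.Q282.WR

open Pool.Agent.Helper449.MST MvPolynomial

theorem matGW_add (g h : Fin 3 → ZMod 3) : matGW (g + h) = matGW g + matGW h := by
  unfold matGW matW
  rw [Matrix.diagonal_add]
  congr 1
  funext l
  rw [Pi.add_apply, map_add]

theorem repW_add (N : ℕ) (g h : Fin 3 → ZMod 3) : repW N (g + h) = repW N g * repW N h := by
  unfold repW
  rw [← Matrix.blockDiagonal_mul]
  congr 1
  funext r
  rw [Matrix.fromBlocks_multiply, matGW_add]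
  simp [add_comm]

theorem repW_injective (N : ℕ) (hN : 1 ≤ N) : Function.Injective (repW N) := by
  intro g h hgh
  funext l
  have h1 := congrFun (congrFun hgh (Sum.inr l, (⟨0, hN⟩ : Fin N))) (Sum.inl l, (⟨0, hN⟩ : Fin N))
  have h2 : algebraMap (ZMod 3) K (g l) = algebraMap (ZMod 3) K (h l) := by
    simpa [repW, Matrix.blockDiagonal_apply, matGW, matW] using h1
  exact (algebraMap (ZMod 3) K).injective h2

theorem repW_sub_mulVec (N : ℕ) (M : Matrix (Fin 3) (Fin 3) K) (w : Idx N → K)
    (a : Fin 3 ⊕ Fin 3) (r : Fin N) :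
    ((Matrix.blockDiagonal fun _ : Fin N => Matrix.fromBlocks 0 0 M 0).mulVec w) (a, r) =
      Sum.elim (fun _ => (0 : K)) (fun i => (M.mulVec fun j => w (Sum.inl j, r)) i) a := by
  simp only [Matrix.mulVec, dotProduct, Fintype.sum_prod_type]
  rw [Fintype.sum_sum_type]
  simp only [Matrix.blockDiagonal_apply, ite_mul, zero_mul, Finset.sum_ite_eq, Finset.mem_univ,
    if_true]
  rcases a with i | i
  · simp
  · simp

/-- the vectors in the range -/
noncomputable def iotaW (N : ℕ) (g : Fin 3 → ZMod 3) :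
    ({l // g l ≠ 0} × Fin N → K) →ₗ[K] (Idx N → K) where
  toFun z := fun p => Sum.elim (fun _ => (0 : K))
    (fun i => if h : g i ≠ 0 then z (⟨i, h⟩, p.2) else 0) p.1
  map_add' z z' := by
    funext p
    rcases p with ⟨i | i, r⟩
    · simp
    · simp only [Sum.elim_inr, Pi.add_apply]
      split_ifs
      · rfl
      · simp
  map_smul' c z := by
    funext p
    rcases p with ⟨i | i, r⟩
    · simp
    · simp only [Sum.elim_inr, Pi.smul_apply, RingHom.id_apply]
      split_ifs
      · rfl
      · simp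

theorem iotaW_inj (N : ℕ) (g : Fin 3 → ZMod 3) : Function.Injective (iotaW N g) := by
  intro z z' h
  funext p
  have h1 := congrFun h (Sum.inr (p.1 : Fin 3), p.2)
  have h2 : (if h : g (p.1 : Fin 3) ≠ 0 then z (⟨p.1, h⟩, p.2) else 0) =
      if h : g (p.1 : Fin 3) ≠ 0 then z' (⟨p.1, h⟩, p.2) else 0 := h1
  rw [dif_pos p.1.2, dif_pos p.1.2] at h2
  exact h2

theorem repW_rank (N : ℕ) (g : Fin 3 → ZMod 3) :
    (repW N g - 1).rank = N * Fintype.card {l // g l ≠ 0} := by
  have h1 : repW N g - 1 =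
      Matrix.blockDiagonal fun _ : Fin N => Matrix.fromBlocks 0 0 (matGW g) 0 := by
    unfold repW
    rw [← Matrix.blockDiagonal_one, ← Matrix.blockDiagonal_sub]
    congr 1
    funext _
    rw [Pi.sub_apply, Pi.one_apply, ← Matrix.fromBlocks_one, sub_eq_add_neg, Matrix.fromBlocks_neg,
      Matrix.fromBlocks_add]
    simp
  have hr : LinearMap.range (Matrix.mulVecLin
      (Matrix.blockDiagonal fun _ : Fin N => Matrix.fromBlocks 0 0 (matGW g) 0 :
        Matrix (Idx N) (Idx N) K)) = LinearMap.range (iotaW N g) := by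
    ext v
    constructor
    · rintro ⟨w, rfl⟩
      refine ⟨fun p => algebraMap (ZMod 3) K (g p.1) * w (Sum.inl (p.1 : Fin 3), p.2), ?_⟩
      funext p
      rcases p with ⟨a, r⟩
      rw [Matrix.mulVecLin_apply, repW_sub_mulVec]
      rcases a with i | i
      · rfl
      · show (if h : g i ≠ 0 then algebraMap (ZMod 3) K (g i) * w (Sum.inl i, r) else 0) =
          (matGW g).mulVec (fun j => w (Sum.inl j, r)) i
        unfold matGW
        rw [matW_mulVec]
        split_ifs with h
        · rfl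
        · push Not at h
          rw [h, map_zero, zero_mul]
    · rintro ⟨z, rfl⟩
      refine ⟨fun p => Sum.elim (fun i => if h : g i ≠ 0 then
        (algebraMap (ZMod 3) K (g i))⁻¹ * z (⟨i, h⟩, p.2) else 0) (fun _ => 0) p.1, ?_⟩
      funext p
      rcases p with ⟨a, r⟩
      rw [Matrix.mulVecLin_apply, repW_sub_mulVec]
      rcases a with i | i
      · rfl
      · show (matGW g).mulVec (fun j => if h : g j ≠ 0 then
            (algebraMap (ZMod 3) K (g j))⁻¹ * z (⟨j, h⟩, r) else 0) i =
          (if h : g i ≠ 0 then z (⟨i, h⟩, r) else 0)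
        unfold matGW
        rw [matW_mulVec]
        split_ifs with h
        · have h0 : algebraMap (ZMod 3) K (g i) ≠ 0 := fun h0 =>
            h ((map_eq_zero_iff _ (algebraMap (ZMod 3) K).injective).1 h0)
          rw [mul_inv_cancel_left₀ h0]
        · rw [mul_zero]
  rw [h1, Matrix.rank, hr, LinearMap.finrank_range_of_inj (iotaW_inj N g)]
  simp [mul_comm]

theorem repW_rank_ge (N : ℕ) (g : Fin 3 → ZMod 3) (hg : g ≠ 0) : N ≤ (repW N g - 1).rank := by
  rw [repW_rank]
  have h : 1 ≤ Fintype.card {l // g l ≠ 0} := by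
    obtain ⟨l, hl⟩ : ∃ l, g l ≠ 0 := by
      by_contra hc
      push Not at hc
      exact hg (funext hc)
    exact Fintype.card_pos_iff.2 ⟨⟨l, hl⟩⟩
  exact Nat.le_mul_of_pos_right _ h

end Pool.Agent.Q282.WR
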