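import Pool.Agent.Q282.WR.V

/-! # Level sets and partial sums -/

namespace Pool.Agent.Q282.WR

open Pool.Agent.Helper449.MST MvPolynomial

/-! ### Constructibility -/

theorem constr_union {n : ℕ} {S T : Set (Fin n → K)} (hS : Constr S) (hT : Constr T) :
    Constr (S ∪ T) := by
  have h := Constr.compl (Constr.inter (Constr.compl hS) (Constr.compl hT))
  rwa [Set.compl_inter, compl_compl, compl_compl] at h

theorem constr_empty (n : ℕ) : Constr (∅ : Set (Fin n → K)) := by
  have h := Constr.compl (constr_univ n)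
  rwa [Set.compl_univ] at h

theorem constr_biUnion {n : ℕ} {ι : Type*} (s : Finset ι) (S : ι → Set (Fin n → K))
    (h : ∀ i ∈ s, Constr (S i)) : Constr (⋃ i ∈ s, S i) := by
  classical
  induction s using Finset.induction_on with
  | empty =>
    simp only [Finset.notMem_empty, Set.iUnion_of_empty, Set.iUnion_empty]
    exact constr_empty n
  | insert a s ha ih =>
    rw [Finset.set_biUnion_insert]
    exact constr_union (h a (Finset.mem_insert_self a s))
      (ih fun i hi => h i (Finset.mem_insert_of_mem hi))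

theorem constr_biInter {n : ℕ} {ι : Type*} (s : Finset ι) (S : ι → Set (Fin n → K))
    (h : ∀ i ∈ s, Constr (S i)) : Constr (⋂ i ∈ s, S i) := by
  classical
  induction s using Finset.induction_on with
  | empty =>
    simp only [Finset.notMem_empty, Set.iInter_of_empty, Set.iInter_univ]
    exact constr_univ n
  | insert a s ha ih =>
    rw [Finset.set_biInter_insert]
    exact Constr.inter (h a (Finset.mem_insert_self a s))
      (ih fun i hi => h i (Finset.mem_insert_of_mem hi))

theorem constr_coord {n : ℕ} (i : Fin n) : Constr {x : Fin n → K | x i = 0} := by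
  have h := Constr.zero (X i : MvPolynomial (Fin n) K)
  simpa using h

open Classical in
/-- A set which depends only on the set of the nonzero coordinates is constructible. -/
theorem constr_pattern {n : ℕ} (P : Finset (Fin n) → Prop) :
    Constr {x : Fin n → K | P (Finset.univ.filter fun i => x i ≠ 0)} := by
  have e : {x : Fin n → K | P (Finset.univ.filter fun i => x i ≠ 0)} =
      ⋃ Z ∈ (Finset.univ : Finset (Finset (Fin n))).filter P,
        ⋂ i ∈ (Finset.univ : Finset (Fin n)),
          (if i ∈ Z then {x : Fin n → K | x i = 0}ᶜ else {x : Fin n → K | x i = 0}) := by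
    ext x
    simp only [Set.mem_setOf_eq, Set.mem_iUnion, Set.mem_iInter, Finset.mem_filter,
      Finset.mem_univ, true_and, forall_const, exists_prop]
    constructor
    · intro h
      refine ⟨_, h, fun i => ?_⟩
      by_cases hi : x i = 0
      · rw [if_neg (by simp [hi])]
        exact hi
      · rw [if_pos (by simp [hi])]
        exact hi
    · rintro ⟨Z, hZ, h⟩
      have hZe : Z = Finset.univ.filter fun i => x i ≠ 0 := by
        ext i
        rw [Finset.mem_filter]
        have hi := h i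
        by_cases hz : i ∈ Z
        · rw [if_pos hz] at hi
          exact ⟨fun _ => ⟨Finset.mem_univ _, hi⟩, fun _ => hz⟩
        · rw [if_neg hz] at hi
          exact ⟨fun h => absurd h hz, fun h => absurd hi h.2⟩
      rwa [hZe] at hZ
  rw [e]
  refine constr_biUnion _ _ fun Z _ => constr_biInter _ _ fun i _ => ?_
  split_ifs
  · exact (constr_coord i).compl
  · exact constr_coord i

theorem ofFin_apply {n : ℕ} (x : Fin n → K) (i : ℕ) :
    ofFin x i = if h : i < n then x ⟨i, h⟩ else 0 := rfl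

open Classical in
theorem mval_ofFin {n : ℕ} (x : Fin n → K) (l : Fin 3) :
    mval (ofFin x) l = (((Finset.univ.filter fun i => x i ≠ 0).filter
      fun i : Fin n => (i : ℕ) % 3 = (l : ℕ)).sup fun i => (i : ℕ) / 6 + 1) := by
  apply le_antisymm
  · rw [mval_le_iff]
    intro i hi hF
    rw [ofFin_apply] at hF
    by_cases h : i < n
    · rw [dif_pos h] at hF
      have hmem : (⟨i, h⟩ : Fin n) ∈ ((Finset.univ.filter fun i => x i ≠ 0).filter
          fun i : Fin n => (i : ℕ) % 3 = (l : ℕ)) := by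
        rw [Finset.mem_filter, Finset.mem_filter]
        exact ⟨⟨Finset.mem_univ _, hF⟩, hi⟩
      have := Finset.le_sup (f := fun i : Fin n => (i : ℕ) / 6 + 1) hmem
      simp only at this
      omega
    · rw [dif_neg h] at hF
      exact absurd rfl hF
  · rw [Finset.sup_le_iff]
    intro i hi
    rw [Finset.mem_filter, Finset.mem_filter] at hi
    have := (mval_le_iff (ofFin x) l _).1 le_rfl (i : ℕ) hi.2
      (by rw [ofFin_apply, dif_pos i.2]; exact hi.1.2)
    omega

theorem constr_levelW (N b : ℕ) : Constr (levelW N b) := by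
  classical
  have h := constr_pattern (n := b) fun Z => 27 * N * (∑ l : Fin 3, ((Z.filter
    fun i : Fin b => (i : ℕ) % 3 = (l : ℕ)).sup fun i => (i : ℕ) / 6 + 1)) = b
  have e : levelW N b = {x : Fin b → K | 27 * N * (∑ l : Fin 3, (((Finset.univ.filter
    fun i => x i ≠ 0).filter fun i : Fin b => (i : ℕ) % 3 = (l : ℕ)).sup
      fun i => (i : ℕ) / 6 + 1)) = b} := by
    ext x
    simp only [levelW, Set.mem_setOf_eq, v27W_eq, vW, mval_ofFin, Nat.cast_inj]
  rw [e]
  exact h

/-- The partial sums `∑_{b ≤ n} {v⁻¹(b / 27)} L^{6N - b / 27}` of the stringy motive of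
`K^{6N} / G`, by Yasuda's formula. -/
noncomputable def stringyW (N n : ℕ) : FreeAbelianGroup Gen :=
  ∑ b ∈ Finset.range (n + 1),
    FreeAbelianGroup.of ⟨b, levelW N b, constr_levelW N b, 27 * (6 * (N : ℤ)) - b⟩

theorem support_bound_W (F : ℕ →₀ K) (i : ℕ) (hi : 6 * vW F ≤ i) : F i = 0 := by
  by_contra hne
  have h3 : i % 3 < 3 := Nat.mod_lt _ (by norm_num)
  have h1 := (mval_le_iff F ⟨i % 3, h3⟩ _).1 le_rfl i rfl hne
  have h2 : mval F ⟨i % 3, h3⟩ ≤ vW F :=
    Finset.single_le_sum (f := fun l => mval F l) (fun _ _ => Nat.zero_le _) (Finset.mem_univ _)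
  omega

/-! ### Convergence -/

/-- The level set `v = N a`, for `N` copies, in the space `K^{6a}`. -/
def levelA (a : ℕ) : Set (Fin (6 * a) → K) := {x | vW (ofFin x) = a}

theorem constr_levelA (a : ℕ) : Constr (levelA a) := by
  classical
  have h := constr_pattern (n := 6 * a) fun Z => (∑ l : Fin 3, ((Z.filter
    fun i : Fin (6 * a) => (i : ℕ) % 3 = (l : ℕ)).sup fun i => (i : ℕ) / 6 + 1)) = a
  have e : levelA a = {x : Fin (6 * a) → K | (∑ l : Fin 3, (((Finset.univ.filter
    fun i => x i ≠ 0).filter fun i : Fin (6 * a) => (i : ℕ) % 3 = (l : ℕ)).sup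
      fun i => (i : ℕ) / 6 + 1)) = a} := by
    ext x
    simp only [levelA, Set.mem_setOf_eq, vW, mval_ofFin]
  rw [e]
  exact h

theorem levelW_mem (N a : ℕ) (hN : 1 ≤ N) (x : Fin (27 * N * a) → K) :
    x ∈ levelW N (27 * N * a) ↔ vW (ofFin x) = a := by
  show v27W N (ofFin x) = ((27 * N * a : ℕ) : ℕ∞) ↔ _
  rw [v27W_eq, Nat.cast_inj]
  have h : 0 < 27 * N := by omega
  exact Nat.mul_right_inj h.ne'

theorem isom_of (n m a : ℕ) (x : Fin n → K) (hm : 6 * a ≤ m) (hx : vW (ofFin x) = a) :
    ofFin (level_isom_f n m x) = ofFin x := by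
  ext i
  rw [ofFin_apply, ofFin_apply]
  by_cases h : i < m
  · rw [dif_pos h]
    rfl
  · rw [dif_neg h]
    have h0 := support_bound_W (ofFin x) i (by rw [hx]; omega)
    rw [ofFin_apply] at h0
    exact h0.symm

theorem level_isomW (N a : ℕ) (hN : 1 ≤ N) : Isom (levelW N (27 * N * a)) (levelA a) := by
  have hle : 6 * a ≤ 27 * N * a := Nat.mul_le_mul_right a (by omega)
  refine ⟨level_isom_f _ _, level_isom_f _ _, level_isom_reg _ _ _, level_isom_reg _ _ _, ?_, ?_,
    ?_, ?_⟩
  · intro x hx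
    have h1 := (levelW_mem N a hN x).1 hx
    show vW (ofFin (level_isom_f _ _ x)) = a
    rw [isom_of _ _ a x le_rfl h1, h1]
  · intro y hy
    have h1 : vW (ofFin y) = a := hy
    rw [levelW_mem N a hN, isom_of _ _ a y hle h1, h1]
  · intro x hx
    have h1 := (levelW_mem N a hN x).1 hx
    apply level_isom_inj
    have h2 := isom_of _ _ a x (le_refl (6 * a)) h1
    rw [isom_of _ _ a _ hle (by rw [h2, h1]), h2]
  · intro y hy
    have h1 : vW (ofFin y) = a := hy
    apply level_isom_inj
    have h2 := isom_of _ _ a y hle h1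
    rw [isom_of _ _ a _ le_rfl (by rw [h2, h1]), h2]

theorem level_empty (N b : ℕ) (h : ¬ 27 * N ∣ b) : levelW N b = ∅ := by
  rw [Set.eq_empty_iff_forall_notMem]
  intro x hx
  have hx' : v27W N (ofFin x) = (b : ℕ∞) := hx
  rw [v27W_eq] at hx'
  have h2 : 27 * N * vW (ofFin x) = b := by exact_mod_cast hx'
  exact h ⟨_, h2.symm⟩

/-- A term of `stringyW` far out lies deep in the filtration. -/
theorem term_mem (m : ℤ) (b : ℕ) (hb : (27 * 7 * (42 + m)).toNat ≤ b) :
    FreeAbelianGroup.of (⟨b, levelW 7 b, constr_levelW 7 b,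
      27 * (6 * ((7 : ℕ) : ℤ)) - b⟩ : Gen) ∈ relSub ⊔ Fil m := by
  by_cases hd : 27 * 7 ∣ b
  · obtain ⟨a, rfl⟩ := hd
    have h1 : FreeAbelianGroup.of (⟨27 * 7 * a, levelW 7 (27 * 7 * a), constr_levelW 7 (27 * 7 * a),
        27 * (6 * ((7 : ℕ) : ℤ)) - (27 * 7 * a : ℕ)⟩ : Gen) -
        FreeAbelianGroup.of (⟨6 * a, levelA a, constr_levelA a,
          27 * (6 * ((7 : ℕ) : ℤ)) - (27 * 7 * a : ℕ)⟩ : Gen) ∈ relSub :=
      AddSubgroup.subset_closure (Rel.iso _ _ (level_isomW 7 a (by norm_num)) _)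
    have h2 : FreeAbelianGroup.of (⟨6 * a, levelA a, constr_levelA a,
          27 * (6 * ((7 : ℕ) : ℤ)) - (27 * 7 * a : ℕ)⟩ : Gen) ∈ Fil m := by
      apply AddSubgroup.subset_closure
      refine ⟨⟨6 * a, levelA a, constr_levelA a,
          27 * (6 * ((7 : ℕ) : ℤ)) - (27 * 7 * a : ℕ)⟩, 6 * a, ?_, ?_, rfl⟩
      · refine (ringKrullDim_quotient_le _).trans ?_
        rw [MvPolynomial.ringKrullDim_of_isNoetherianRing, ringKrullDim_eq_zero_of_field, zero_add,
          Nat.card_eq_fintype_card, Fintype.card_fin]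
      · show 27 * ((6 * a : ℕ) : ℤ) + (27 * (6 * ((7 : ℕ) : ℤ)) - (27 * 7 * a : ℕ)) ≤ -(27 * m)
        push_cast
        have : 27 * 7 * (42 + m) ≤ (27 * 7 * a : ℤ) := by omega
        omega
    have h3 := (relSub ⊔ Fil m).add_mem ((le_sup_left : relSub ≤ relSub ⊔ Fil m) h1)
      ((le_sup_right : Fil m ≤ relSub ⊔ Fil m) h2)
    rwa [sub_add_cancel] at h3
  · exact (le_sup_left : relSub ≤ relSub ⊔ Fil m) (empty_rel _ _ _ _ (level_empty 7 b hd))

theorem converges_auxW (m : ℤ) (n : ℕ) (hn : (27 * 7 * (42 + m)).toNat ≤ n) :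
    stringyW 7 n - stringyW 7 (27 * 7 * (42 + m)).toNat ∈ relSub ⊔ Fil m := by
  induction n, hn using Nat.le_induction with
  | base => rw [sub_self]; exact (relSub ⊔ Fil m).zero_mem
  | succ n hn ih =>
    have h1 : stringyW 7 (n + 1) - stringyW 7 (27 * 7 * (42 + m)).toNat =
        (stringyW 7 n - stringyW 7 (27 * 7 * (42 + m)).toNat) +
        FreeAbelianGroup.of (⟨n + 1, levelW 7 (n + 1), constr_levelW 7 (n + 1),
          27 * (6 * ((7 : ℕ) : ℤ)) - ((n + 1 : ℕ) : ℤ)⟩ : Gen) := by
      unfold stringyW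
      rw [Finset.sum_range_succ (fun b => FreeAbelianGroup.of (⟨b, levelW 7 b, constr_levelW 7 b,
          27 * (6 * ((7 : ℕ) : ℤ)) - b⟩ : Gen)) (n + 1)]
      abel
    rw [h1]
    exact (relSub ⊔ Fil m).add_mem ih (term_mem m (n + 1) (by omega))

/-- The stringy motive of `K^{42} / G` is finite. -/
theorem stringyW_converges : ConvergesMod relSub (stringyW 7) := by
  intro m
  refine ⟨(27 * 7 * (42 + m)).toNat, fun n hn n' hn' => ?_⟩
  have h := (relSub ⊔ Fil m).sub_mem (converges_auxW m n hn) (converges_auxW m n' hn')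
  rwa [sub_sub_sub_cancel_right] at h

end Pool.Agent.Q282.WR
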