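import Pool.Agent.Helper449.MST.J
import Pool.Agent.Helper449.MST.Q
import Pool.Agent.Helper449.MST.P
import Pool.Agent.Helper449.MST.U

/-!
# A representation of `(ℤ/3)³` with diagonal matrices, and the function `v`

`K` is an algebraic closure of `𝔽₃` and `G = (ℤ/3)³` acts on `K^{6N}`, as `N` copies of `K³ × K³`,
by `(x, y) ↦ (x, y + (g₀ x₀, g₁ x₁, g₂ x₂))`: the quotient is the product of three copies of
`K^{2N} / (ℤ/3)`. The Grothendieck ring, the torsors and the tuning module are those of
`Pool.Agent.Helper449.MST`.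
-/

namespace Pool.Agent.Q282.WR

open Pool.Agent.Helper449.MST MvPolynomial

/-- The diagonal matrix with the entries `c`. -/
noncomputable def matW (c : Fin 3 → K) : Matrix (Fin 3) (Fin 3) K := Matrix.diagonal c

/-- The diagonal matrix with the entries `g₀, g₁, g₂`, for `g ∈ G = (ℤ/3)³`. -/
noncomputable def matGW (g : Fin 3 → ZMod 3) : Matrix (Fin 3) (Fin 3) K :=
  matW fun l => algebraMap (ZMod 3) K (g l)

/-- The matrix of `g ∈ G = (ℤ/3)³` on `K^{6N}`: on each of the `N` copies of `K³ × K³` it is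
`(x, y) ↦ (x, y + (g₀ x₀, g₁ x₁, g₂ x₂))`. -/
noncomputable def repW (N : ℕ) (g : Fin 3 → ZMod 3) : Matrix (Idx N) (Idx N) K :=
  Matrix.blockDiagonal fun _ => Matrix.fromBlocks 1 0 (matGW g) 1

/-- `|G| = 27` times the value at the torsor `F` of Yasuda's function `v` of the representation
`repW N` of `G = (ℤ/3)³` on `K^{6N}`: the length of `(𝓞 L)^{6N}` modulo the submodule generated by
the tuning module, where `L` is the algebra of the torsor. -/
noncomputable def v27W (N : ℕ) (F : ℕ →₀ K) : ℕ∞ :=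
  colength (A := PowerSeries K) (L := AS (fser F)) (sigma (fser F))
    fun g => (repW N g).map PowerSeries.C

/-- The level set `v = b / 27`, as a subset of the space `K^b` of the torsors with only the first
`b` coordinates nonzero. -/
def levelW (N b : ℕ) : Set (Fin b → K) := {x | v27W N (ofFin x) = b}

/-! ### The value for one coordinate -/

/-- The value for the `l`-th coordinate `f_l = ∑ c_j(l) t^{-j}` of the torsor: `0` if `f_l = 0`,
and `⌊j / 3⌋ + 1` if `j` is the order of the pole. -/
noncomputable def mval (F : ℕ →₀ K) (l : Fin 3) : ℕ :=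
  (F.support.filter fun i => i % 3 = (l : ℕ)).sup fun i => i / 6 + 1

theorem mval_le_iff (F : ℕ →₀ K) (l : Fin 3) (m : ℕ) :
    mval F l ≤ m ↔ ∀ i : ℕ, i % 3 = (l : ℕ) → F i ≠ 0 → i < 6 * m := by
  unfold mval
  rw [Finset.sup_le_iff]
  constructor
  · intro h i hi hF
    have := h i (Finset.mem_filter.2 ⟨Finsupp.mem_support_iff.2 hF, hi⟩)
    omega
  · intro h i hi
    rw [Finset.mem_filter, Finsupp.mem_support_iff] at hi
    have := h i hi.2 hi.1
    omega

theorem coef_apply (F : ℕ →₀ K) (j : ℕ) (h3 : ¬ j % 3 = 0) (l : Fin 3) :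
    coef F j l = F (3 * (2 * (j / 3) + j % 3 - 1) + l) := by
  unfold coef
  rw [if_neg h3]

theorem coef_of_dvd (F : ℕ →₀ K) (j : ℕ) (h3 : j % 3 = 0) (l : Fin 3) : coef F j l = 0 := by
  unfold coef
  rw [if_pos h3]

theorem coef_eq_zero_of_mval (F : ℕ →₀ K) (l : Fin 3) (j : ℕ) (h : mval F l ≤ j / 3) :
    coef F j l = 0 := by
  by_cases h3 : j % 3 = 0
  · exact coef_of_dvd F j h3 l
  · rw [coef_apply F j h3]
    by_contra hne
    have := (mval_le_iff F l (j / 3)).1 h _ (by omega) hne
    omega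

theorem mval_top (F : ℕ →₀ K) (l : Fin 3) (m : ℕ) (h : mval F l = m + 1) :
    ∃ j, j / 3 = m ∧ ¬ 3 ∣ j ∧ coef F j l ≠ 0 ∧ ∀ j', j < j' → coef F j' l = 0 := by
  have hex : ∃ i : ℕ, i % 3 = (l : ℕ) ∧ F i ≠ 0 ∧ 6 * m ≤ i := by
    by_contra hc
    push Not at hc
    have : mval F l ≤ m := (mval_le_iff F l m).2 fun i hi hF => hc i hi hF
    omega
  obtain ⟨i, hi, hF, hm⟩ := hex
  have hlt := (mval_le_iff F l (m + 1)).1 h.le i hi hF
  have hl := l.2
  have hbig : ∀ j', 3 * m + 2 < j' → coef F j' l = 0 := fun j' hj' =>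
    coef_eq_zero_of_mval F l j' (by omega)
  by_cases h2 : coef F (3 * m + 2) l = 0
  · refine ⟨3 * m + 1, by omega, by omega, ?_, ?_⟩
    · rw [coef_apply F _ (by omega)]
      rw [coef_apply F _ (by omega)] at h2
      intro h1
      by_cases hc : i / 3 = 2 * m
      · have e : 3 * (2 * ((3 * m + 1) / 3) + (3 * m + 1) % 3 - 1) + (l : ℕ) = i := by omega
        rw [e] at h1
        exact hF h1
      · have e : 3 * (2 * ((3 * m + 2) / 3) + (3 * m + 2) % 3 - 1) + (l : ℕ) = i := by omega
        rw [e] at h2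
        exact hF h2
    · intro j' hj'
      by_cases he : j' = 3 * m + 2
      · rw [he]; exact h2
      · exact hbig j' (by omega)
  · exact ⟨3 * m + 2, by omega, by omega, h2, hbig⟩

theorem matW_mulVec (c v : Fin 3 → K) (l : Fin 3) : (matW c).mulVec v l = c l * v l := by
  unfold matW
  rw [Matrix.mulVec_diagonal]

/-- The condition for the coordinates of a power series. -/
theorem cond_iff (F : ℕ →₀ K) (J : ℕ) (hJ : ∀ j, J < j → coef F j = 0) (x : ℕ → Fin 3 → K) :
    (∀ e i : ℕ, 1 ≤ e → 1 ≤ i → ¬ 3 ∣ i → ∑ s ∈ Finset.range (J + 1),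
        (matW fun l => frobInv e (coef F (i + 3 ^ e * s) l)).mulVec (x s) = 0) ↔
      ∀ (l : Fin 3) (s : ℕ), s < mval F l → x s l = 0 := by
  have hcomp : ∀ (e i : ℕ) (l : Fin 3), (∑ s ∈ Finset.range (J + 1),
      (matW fun l => frobInv e (coef F (i + 3 ^ e * s) l)).mulVec (x s)) l =
      ∑ s ∈ Finset.range (J + 1), frobInv e (coef F (i + 3 ^ e * s) l) * x s l := by
    intro e i l
    rw [Finset.sum_apply]
    exact Finset.sum_congr rfl fun s _ => matW_mulVec _ _ _
  have hf0 : ∀ e, frobInv e (0 : K) = 0 := fun e => map_zero (iterateFrobeniusEquiv K 3 e).symm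
  constructor
  · intro h l
    rcases Nat.eq_zero_or_pos (mval F l) with h0 | hpos
    · intro s hs
      omega
    · obtain ⟨m, hm⟩ : ∃ m, mval F l = m + 1 := ⟨mval F l - 1, by omega⟩
      obtain ⟨j, hj3, hjd, hj0, hjt⟩ := mval_top F l m hm
      have hjJ : j ≤ J := by
        by_contra hc
        exact hj0 (by rw [hJ j (by omega)]; rfl)
      intro s
      induction s using Nat.strong_induction_on with
      | _ s ih =>
        intro hs
        have h1 := congrFun (h 1 (j - 3 * s) le_rfl (by omega) (by omega)) l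
        rw [hcomp, Finset.sum_eq_single s] at h1
        · rw [pow_one, show j - 3 * s + 3 * s = j by omega] at h1
          have h2 : frobInv 1 (coef F j l) * x s l = 0 := h1
          rcases mul_eq_zero.1 h2 with h3 | h3
          · exfalso
            apply hj0
            have h4 : (iterateFrobeniusEquiv K 3 1).symm (coef F j l) = 0 := h3
            exact (map_eq_zero_iff _ (iterateFrobeniusEquiv K 3 1).symm.injective).1 h4
          · exact h3
        · intro s' _ hss
          rcases Nat.lt_or_ge s' s with hlt | hge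
          · rw [ih s' hlt (by omega), mul_zero]
          · rw [hjt (j - 3 * s + 3 ^ 1 * s') (by omega), hf0, zero_mul]
        · intro hns
          exfalso
          rw [Finset.mem_range] at hns
          omega
  · intro h e i he hi h3
    funext l
    rw [hcomp]
    refine Finset.sum_eq_zero fun s _ => ?_
    by_cases hs : s < mval F l
    · rw [h l s hs, mul_zero]
    · have h3e : 3 ^ 1 ≤ 3 ^ e := Nat.pow_le_pow_right (by norm_num) he
      have h3s : 3 ^ 1 * s ≤ 3 ^ e * s := Nat.mul_le_mul_right s h3e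
      rw [coef_eq_zero_of_mval F l (i + 3 ^ e * s) (by omega), hf0, zero_mul]

/-- The sequences whose `l`-th coordinates vanish up to `mval F l`. -/
def latW (F : ℕ →₀ K) : Submodule K (ℕ → Fin 3 → K) where
  carrier := {x | ∀ (l : Fin 3) (s : ℕ), s < mval F l → x s l = 0}
  add_mem' {x y} hx hy l s hs := by
    rw [Pi.add_apply, Pi.add_apply, hx l s hs, hy l s hs, add_zero]
  zero_mem' l s _ := rfl
  smul_mem' a x hx l s hs := by
    rw [Pi.smul_apply, Pi.smul_apply, hx l s hs, smul_zero]

theorem mem_latW_iff (F : ℕ →₀ K) (J : ℕ) (hJ : ∀ j, J < j → coef F j = 0)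
    (x : ℕ → Fin 3 → K) :
    x ∈ latW F ↔ ∀ e i : ℕ, 1 ≤ e → 1 ≤ i → ¬ 3 ∣ i →
      ∑ s ∈ Finset.range (J + 1),
        (matW fun l => frobInv e (coef F (i + 3 ^ e * s) l)).mulVec (x s) = 0 :=
  (cond_iff F J hJ x).symm

/-- The value `v` for one copy of `K³ × K³`. -/
noncomputable def vW (F : ℕ →₀ K) : ℕ := ∑ l, mval F l

/-- the coordinates which have to vanish -/
def proj (F : ℕ →₀ K) : (ℕ → Fin 3 → K) →ₗ[K] ((Σ l : Fin 3, Fin (mval F l)) → K) where
  toFun x := fun p => x p.2 p.1
  map_add' _ _ := rfl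
  map_smul' _ _ := rfl

theorem proj_ker (F : ℕ →₀ K) : LinearMap.ker (proj F) = latW F := by
  ext x
  rw [LinearMap.mem_ker]
  constructor
  · intro h l s hs
    exact congrFun h ⟨l, ⟨s, hs⟩⟩
  · intro h
    funext p
    exact h p.1 p.2 p.2.2

theorem proj_surjective (F : ℕ →₀ K) : Function.Surjective (proj F) := by
  intro z
  refine ⟨fun s l => if h : s < mval F l then z ⟨l, ⟨s, h⟩⟩ else 0, ?_⟩
  funext p
  show (if h : (p.2 : ℕ) < mval F p.1 then z ⟨p.1, ⟨p.2, h⟩⟩ else 0) = z p
  rw [dif_pos p.2.2]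

noncomputable def quotEquiv (F : ℕ →₀ K) :
    ((ℕ → Fin 3 → K) ⧸ latW F) ≃ₗ[K] ((Σ l : Fin 3, Fin (mval F l)) → K) :=
  (Submodule.quotEquivOfEq _ _ (proj_ker F).symm).trans
    ((proj F).quotKerEquivOfSurjective (proj_surjective F))

theorem finiteDimW (F : ℕ →₀ K) : FiniteDimensional K ((ℕ → Fin 3 → K) ⧸ latW F) :=
  (quotEquiv F).symm.finiteDimensional

theorem finrank_quot (F : ℕ →₀ K) : Module.finrank K ((ℕ → Fin 3 → K) ⧸ latW F) = vW F := by
  rw [(quotEquiv F).finrank_eq, Module.finrank_fintype_fun_eq_card, Fintype.card_sigma]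
  simp [vW]

/-- the coefficient of `α_l` in the `i`-th coordinate of `M(α) x` -/
noncomputable def melW (x : Fin 3 → PowerSeries K) (i l : Fin 3) : PowerSeries K :=
  ∑ k, PowerSeries.C (matW (Pi.single l 1) i k) * x k

theorem matW_linear (c : Fin 3 → K) : matW c = ∑ l, c l • matW (Pi.single l 1) := by
  rw [Fin.sum_univ_three]
  ext i j
  fin_cases i <;> fin_cases j <;> simp [matW]

/-- the `i`-th coordinate of `M(α) x + y` in the torsor algebra -/
noncomputable def linW (F : ℕ →₀ K) (x : Fin 3 → PowerSeries K) (y : Fin 3 → LaurentSeries K)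
    (i : Fin 3) : AS (fser F) :=
  ∑ l, algebraMap (PowerSeries K) (AS (fser F)) (melW x i l) * gen (fser F) l +
    algebraMap (LaurentSeries K) (AS (fser F)) (y i)

theorem linW_add (F : ℕ →₀ K) (x x' : Fin 3 → PowerSeries K) (y y' : Fin 3 → LaurentSeries K)
    (i : Fin 3) : linW F (x + x') (y + y') i = linW F x y i + linW F x' y' i := by
  have hmel : ∀ l, melW (x + x') i l = melW x i l + melW x' i l := by
    intro l
    unfold melW
    rw [← Finset.sum_add_distrib]
    refine Finset.sum_congr rfl (fun k _ => ?_)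
    rw [Pi.add_apply, mul_add]
  unfold linW
  have h1 : ∑ l, algebraMap (PowerSeries K) (AS (fser F)) (melW (x + x') i l) * gen (fser F) l
      = ∑ l, algebraMap (PowerSeries K) (AS (fser F)) (melW x i l) * gen (fser F) l
        + ∑ l, algebraMap (PowerSeries K) (AS (fser F)) (melW x' i l) * gen (fser F) l := by
    rw [← Finset.sum_add_distrib]
    refine Finset.sum_congr rfl (fun l _ => ?_)
    rw [hmel, map_add, add_mul]
  rw [h1, Pi.add_apply, map_add]
  abel

theorem linW_smul_mel (a : PowerSeries K) (x : Fin 3 → PowerSeries K) (i l : Fin 3) :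
    melW (a • x) i l = a * melW x i l := by
  unfold melW
  rw [Finset.mul_sum]
  apply Finset.sum_congr rfl
  intro k _
  rw [Pi.smul_apply, smul_eq_mul]
  ring

theorem linW_smul (F : ℕ →₀ K) (a : PowerSeries K) (x : Fin 3 → PowerSeries K)
    (y : Fin 3 → LaurentSeries K) (i : Fin 3) :
    linW F (a • x) (fun k => algebraMap (PowerSeries K) (LaurentSeries K) a * y k) i =
      algebraMap (PowerSeries K) (AS (fser F)) a * linW F x y i := by
  exact lin_smul_gen (algebraMap (PowerSeries K) (AS (fser F)))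
    (algebraMap (LaurentSeries K) (AS (fser F))) (algebraMap (PowerSeries K) (LaurentSeries K))
    (fun _ => rfl) a (melW x i) (melW (a • x) i) (fun l => linW_smul_mel a x i l)
    (gen (fser F)) (y i)

theorem latW_iff_key (F : ℕ →₀ K) (J : ℕ) (hJ : ∀ j, J < j → coef F j = 0)
    (x : Fin 3 → PowerSeries K) (y : LaurentSeries K) (i : Fin 3) (e i0 : ℕ) (he : 1 ≤ e)
    (hi : 1 ≤ i0) (h3 : ¬ 3 ∣ i0) :
    (∑ l, embP (melW x i l) * alpha F l + emb y).coeff (-(i0 : ℚ) / 3 ^ e) =
      (∑ s ∈ Finset.range (J + 1), (matW fun l => frobInv e (coef F (i0 + 3 ^ e * s) l)).mulVec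
        (fun l => PowerSeries.coeff s (x l))) i := by
  rw [HahnSeries.coeff_add, emb_coeff_ne y _ (lattice_iff_int e i0 he h3), add_zero,
    HahnSeries.coeff_sum, Finset.sum_apply]
  have h1 : ∀ l ∈ (Finset.univ : Finset (Fin 3)),
      (embP (melW x i l) * alpha F l).coeff (-(i0 : ℚ) / 3 ^ e) =
      ∑ s ∈ Finset.range (J + 1), ∑ k, matW (Pi.single l 1) i k * PowerSeries.coeff s (x k) *
        frobInv e (coef F (i0 + 3 ^ e * s) l) := by
    intro l _
    rw [coeff_mul_alpha F J hJ (melW x i l) l e i0 he hi h3]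
    refine Finset.sum_congr rfl fun s _ => ?_
    rw [← Finset.sum_mul]
    congr 1
    unfold melW
    rw [map_sum]
    refine Finset.sum_congr rfl fun k _ => ?_
    rw [PowerSeries.coeff_C_mul]
  rw [Finset.sum_congr rfl h1, Finset.sum_comm]
  refine Finset.sum_congr rfl fun s _ => ?_
  rw [Finset.sum_comm]
  show _ = ∑ k, matW (fun l => frobInv e (coef F (i0 + 3 ^ e * s) l)) i k *
    PowerSeries.coeff s (x k)
  refine Finset.sum_congr rfl fun k _ => ?_
  rw [matW_linear (fun l => frobInv e (coef F (i0 + 3 ^ e * s) l)), Matrix.sum_apply,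
    Finset.sum_mul]
  refine Finset.sum_congr rfl fun l _ => ?_
  rw [Matrix.smul_apply, smul_eq_mul]
  ring

theorem latW_iff (F : ℕ →₀ K) (x : Fin 3 → PowerSeries K) :
    (fun s l => PowerSeries.coeff s (x l)) ∈ latW F ↔
      ∃ y : Fin 3 → LaurentSeries K, ∀ i, IsIntegral (PowerSeries K) (linW F x y i) := by
  have hJ : ∀ j, F.support.sup id + 1 < j → coef F j = 0 := fun j hj =>
    coef_eq_zero_of_top F j (by omega)
  rw [mem_latW_iff F (F.support.sup id + 1) hJ]
  constructor
  · intro h
    refine ⟨0, fun i => ?_⟩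
    unfold linW
    rw [integral_iff]
    intro r hr
    by_cases hex : ∃ e i0 : ℕ, 1 ≤ e ∧ 1 ≤ i0 ∧ ¬ 3 ∣ i0 ∧ r = -(i0 : ℚ) / 3 ^ e
    · obtain ⟨e, i0, he, hi, h3, rfl⟩ := hex
      rw [latW_iff_key F _ hJ x _ i e i0 he hi h3, h e i0 he hi h3]
      rfl
    · rw [HahnSeries.coeff_add, HahnSeries.coeff_sum]
      have h0 : emb ((0 : Fin 3 → LaurentSeries K) i) = 0 := by
        rw [Pi.zero_apply, map_zero]
      rw [h0, HahnSeries.coeff_zero, add_zero]
      apply Finset.sum_eq_zero
      intro l _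
      apply coeff_mul_alpha_ne F _ l r hr
      intro e i0 he hi h3 hr'
      exact hex ⟨e, i0, he, hi, h3, hr'⟩
  · rintro ⟨y, hy⟩ e i0 he hi h3
    funext i
    have h1 := hy i
    unfold linW at h1
    rw [integral_iff] at h1
    have hr : -(i0 : ℚ) / 3 ^ e < 0 := by
      have h2 : (0 : ℚ) < i0 := by exact_mod_cast hi
      exact div_neg_of_neg_of_pos (by linarith) (by positivity)
    have h2 := h1 _ hr
    rw [latW_iff_key F _ hJ x _ i e i0 he hi h3] at h2
    exact h2

/-- the projection of the tuning module -/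
noncomputable def LamW (F : ℕ →₀ K) : Submodule (PowerSeries K) (Fin 3 → PowerSeries K) where
  carrier := {x | ∃ y : Fin 3 → LaurentSeries K, ∀ i, IsIntegral (PowerSeries K) (linW F x y i)}
  zero_mem' := ⟨0, fun i => by
    have h : linW F 0 0 i = 0 := by simp [linW, melW]
    rw [h]
    exact isIntegral_zero⟩
  add_mem' := by
    rintro x x' ⟨y, hy⟩ ⟨y', hy'⟩
    refine ⟨y + y', fun i => ?_⟩
    rw [linW_add]
    exact (hy i).add (hy' i)
  smul_mem' := by
    rintro a x ⟨y, hy⟩
    refine ⟨fun k => algebraMap (PowerSeries K) (LaurentSeries K) a * y k, fun i => ?_⟩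
    rw [linW_smul]
    exact isIntegral_algebraMap.mul (hy i)

theorem length_LamW (F : ℕ →₀ K) :
    Module.length (PowerSeries K) ((Fin 3 → PowerSeries K) ⧸ LamW F) = (vW F : ℕ∞) := by
  have hmap : ((LamW F).restrictScalars K).map (length_Lam_e : (Fin 3 → PowerSeries K) →ₗ[K] (ℕ → Fin 3 → K)) = latW F := by
    ext z
    simp only [Submodule.mem_map, Submodule.restrictScalars_mem]
    constructor
    · rintro ⟨x, hx, rfl⟩
      exact (latW_iff F x).2 hx
    · intro hz
      refine ⟨length_Lam_e.symm z, ?_, by simp⟩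
      refine (latW_iff F _).1 ?_
      have : (fun s l => PowerSeries.coeff s ((length_Lam_e.symm z) l)) = z := length_Lam_e.apply_symm_apply z
      rw [this]
      exact hz
  have e1 : ((Fin 3 → PowerSeries K) ⧸ (LamW F).restrictScalars K) ≃ₗ[K] ((ℕ → Fin 3 → K) ⧸ latW F) :=
    Submodule.Quotient.equiv _ _ length_Lam_e hmap
  have e2 : ((Fin 3 → PowerSeries K) ⧸ (LamW F).restrictScalars K) ≃ₗ[K] ((Fin 3 → PowerSeries K) ⧸ LamW F) :=
    Submodule.Quotient.restrictScalarsEquiv K (LamW F)
  have e3 := e2.symm.trans e1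
  have := finiteDimW F
  have : FiniteDimensional K ((Fin 3 → PowerSeries K) ⧸ LamW F) := e3.symm.finiteDimensional
  rw [length_eq_finrank, e3.finrank_eq, finrank_quot]

theorem tuningW_iff_sum (N : ℕ) (F : ℕ →₀ K) (g : Fin 3 → ZMod 3)
    (w : Idx N → integralClosure (PowerSeries K) (AS (fser F))) (a : Fin 3 ⊕ Fin 3) (r : Fin N) :
    ∑ k, algebraMap (PowerSeries K) (AS (fser F)) ((repW N g).map PowerSeries.C (a, r) k) *
      (w k : AS (fser F)) =
    ∑ c, algebraMap (PowerSeries K) (AS (fser F))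
      (PowerSeries.C (Matrix.fromBlocks 1 0 (matGW g) 1 a c)) * (w (c, r) : AS (fser F)) := by
  rw [Fintype.sum_prod_type]
  refine Finset.sum_congr rfl fun c _ => ?_
  rw [Finset.sum_eq_single r]
  · simp [repW, Matrix.blockDiagonal_apply]
  · intro r' _ hr
    simp [repW, Matrix.blockDiagonal_apply, hr.symm]
  · simp

theorem tuningW_iff_inl (N : ℕ) (F : ℕ →₀ K) (g : Fin 3 → ZMod 3)
    (w : Idx N → integralClosure (PowerSeries K) (AS (fser F))) (i : Fin 3) (r : Fin N) :
    ∑ k, algebraMap (PowerSeries K) (AS (fser F)) ((repW N g).map PowerSeries.C (Sum.inl i, r) k) *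
      (w k : AS (fser F)) = w (Sum.inl i, r) := by
  rw [tuningW_iff_sum, Fintype.sum_sum_type]
  simp [Matrix.one_apply]

theorem tuningW_iff_inr (N : ℕ) (F : ℕ →₀ K) (g : Fin 3 → ZMod 3)
    (w : Idx N → integralClosure (PowerSeries K) (AS (fser F))) (i : Fin 3) (r : Fin N) :
    ∑ k, algebraMap (PowerSeries K) (AS (fser F)) ((repW N g).map PowerSeries.C (Sum.inr i, r) k) *
      (w k : AS (fser F)) = ∑ k, algebraMap (PowerSeries K) (AS (fser F))
        (PowerSeries.C (matGW g i k)) * (w (Sum.inl k, r) : AS (fser F)) + w (Sum.inr i, r) := by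
  rw [tuningW_iff_sum, Fintype.sum_sum_type]
  simp [Matrix.one_apply]

theorem tuningW_iff_mel (x : Fin 3 → PowerSeries K) (g : Fin 3 → ZMod 3) (i : Fin 3) :
    ∑ l, melW x i l * ((g l).val : PowerSeries K) = ∑ k, PowerSeries.C (matGW g i k) * x k := by
  have h : ∀ k, matGW g i k = ∑ l, ((g l).val : K) * matW (Pi.single l 1) i k := by
    intro k
    rw [matGW, matW_linear, Matrix.sum_apply]
    refine Finset.sum_congr rfl fun l _ => ?_
    rw [Matrix.smul_apply, smul_eq_mul]
    congr 1
    rw [← map_natCast (algebraMap (ZMod 3) K), ZMod.natCast_zmod_val]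
  simp_rw [h, melW, map_sum, map_mul, map_natCast, Finset.sum_mul]
  rw [Finset.sum_comm]
  refine Finset.sum_congr rfl fun k _ => Finset.sum_congr rfl fun l _ => ?_
  ring

theorem tuningW_iff_tower (F : ℕ →₀ K) (z : PowerSeries K) :
    algebraMap (LaurentSeries K) (AS (fser F)) (algebraMap (PowerSeries K) (LaurentSeries K) z) =
      algebraMap (PowerSeries K) (AS (fser F)) z := rfl

theorem tuningW_iff_sigma (F : ℕ →₀ K) (g : Fin 3 → ZMod 3) (x : Fin 3 → PowerSeries K)
    (y : Fin 3 → LaurentSeries K) (i : Fin 3) :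
    sigma (fser F) g (linW F x y i) = ∑ k, algebraMap (PowerSeries K) (AS (fser F))
        (PowerSeries.C (matGW g i k)) * algebraMap (PowerSeries K) (AS (fser F)) (x k) +
        linW F x y i := by
  have h := congrArg (algebraMap (PowerSeries K) (AS (fser F))) (tuningW_iff_mel x g i)
  simp only [map_sum, map_mul, map_natCast] at h
  rw [← h, sigma_eq, linW, map_add, map_sum, sigma_algebraMap]
  have h2 : ∀ l, sigmaHom (fser F) g (algebraMap (PowerSeries K) (AS (fser F)) (melW x i l) *
      gen (fser F) l) = algebraMap (PowerSeries K) (AS (fser F)) (melW x i l) *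
      ((g l).val : AS (fser F)) + algebraMap (PowerSeries K) (AS (fser F)) (melW x i l) *
      gen (fser F) l := by
    intro l
    rw [map_mul, sigma_gen, ← tuningW_iff_tower, sigma_algebraMap]
    ring
  simp_rw [h2, Finset.sum_add_distrib]
  ring

theorem tuningW_iff (N : ℕ) (F : ℕ →₀ K)
    (w : Idx N → integralClosure (PowerSeries K) (AS (fser F))) :
    w ∈ tuning (sigma (fser F)) (fun g => (repW N g).map PowerSeries.C) ↔
      ∀ r, ∃ x ∈ LamW F, ∃ y : Fin 3 → LaurentSeries K, ∀ i,
        (w (Sum.inl i, r) : AS (fser F)) = algebraMap (PowerSeries K) (AS (fser F)) (x i) ∧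
        (w (Sum.inr i, r) : AS (fser F)) = linW F x y i := by
  constructor
  · intro hw r
    have h1 : ∀ i, ∃ z : PowerSeries K,
        (w (Sum.inl i, r) : AS (fser F)) = algebraMap (PowerSeries K) (AS (fser F)) z := by
      intro i
      obtain ⟨y, hy⟩ := invariants (fser F) (w (Sum.inl i, r) : AS (fser F)) (fun g => by
        have := hw g (Sum.inl i, r)
        rw [tuningW_iff_inl] at this
        exact this)
      have hi : IsIntegral (PowerSeries K) (algebraMap (LaurentSeries K) (AS (fser F)) y) := by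
        rw [← hy]
        exact (w (Sum.inl i, r)).2
      obtain ⟨z, hz⟩ := integral_algebraMap F y hi
      exact ⟨z, by rw [hy, hz, tuningW_iff_tower]⟩
    choose x hx using h1
    have h2 : ∀ i, ∃ y : LaurentSeries K, (w (Sum.inr i, r) : AS (fser F)) - linW F x 0 i =
        algebraMap (LaurentSeries K) (AS (fser F)) y := by
      intro i
      refine invariants (fser F) _ fun g => ?_
      have := hw g (Sum.inr i, r)
      rw [tuningW_iff_inr] at this
      have h3 := tuningW_iff_sigma F g x 0 i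
      rw [sigma_eq] at this h3 ⊢
      rw [map_sub, this, h3]
      simp_rw [hx]
      ring
    choose y hy using h2
    have h4 : ∀ i, (w (Sum.inr i, r) : AS (fser F)) = linW F x y i := by
      intro i
      have := hy i
      rw [sub_eq_iff_eq_add] at this
      rw [this, linW, linW]
      simp only [Pi.zero_apply, map_zero]
      ring
    refine ⟨x, ⟨y, fun i => ?_⟩, y, fun i => ⟨hx i, h4 i⟩⟩
    rw [← h4 i]
    exact (w (Sum.inr i, r)).2
  · rintro h g ⟨a, r⟩
    obtain ⟨x, -, y, hxy⟩ := h r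
    rcases a with i | i
    · show sigma (fser F) g (w (Sum.inl i, r)) = ∑ k, algebraMap (PowerSeries K) (AS (fser F))
        ((repW N g).map PowerSeries.C (Sum.inl i, r) k) * (w k : AS (fser F))
      rw [tuningW_iff_inl, (hxy i).1, sigma_eq, ← tuningW_iff_tower, sigma_algebraMap]
    · show sigma (fser F) g (w (Sum.inr i, r)) = ∑ k, algebraMap (PowerSeries K) (AS (fser F))
        ((repW N g).map PowerSeries.C (Sum.inr i, r) k) * (w k : AS (fser F))
      rw [tuningW_iff_inr, (hxy i).2, tuningW_iff_sigma]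
      simp_rw [(hxy _).1]

theorem v27W_eq_mul (N : ℕ) (F : ℕ →₀ K) : v27W N F = N * spanColength (PowerSeries K)
    {w : Fin 3 → integralClosure (PowerSeries K) (AS (fser F)) |
      ∃ x ∈ LamW F, ∀ i, w i = algebraMap (PowerSeries K) _ (x i)} := by
  classical
  unfold v27W colength
  have hlin : ∀ (y : Fin 3 → LaurentSeries K) (i : Fin 3),
      linW F 0 y i = algebraMap (LaurentSeries K) (AS (fser F)) (y i) := by
    intro y i
    simp [linW, melW]
  apply v27_eq_mul_aux
  · intro w hw r
    obtain ⟨x, hx, y, h⟩ := (tuningW_iff N F w).1 hw r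
    refine ⟨x, hx, fun i => ?_⟩
    apply Subtype.ext
    exact (h i).1
  · rintro u ⟨x, hx, hu⟩ r
    obtain ⟨y, hy⟩ := hx
    refine ⟨fun k => Sum.elim (fun i => if k.2 = r then u i else 0)
      (fun i => if k.2 = r then ⟨linW F x y i, hy i⟩ else 0) k.1, ?_, ?_⟩
    · rw [tuningW_iff]
      intro r'
      by_cases hr : r' = r
      · refine ⟨x, ⟨y, hy⟩, y, fun i => ⟨?_, ?_⟩⟩
        · simp only [Sum.elim_inl, hr, if_true]
          rw [hu i]
          rfl
        · simp only [Sum.elim_inr, hr, if_true]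
      · refine ⟨0, (LamW F).zero_mem, 0, fun i => ⟨?_, ?_⟩⟩
        · simp only [Sum.elim_inl, hr, if_false]
          simp
        · simp only [Sum.elim_inr, hr, if_false]
          rw [hlin]
          simp
    · intro r'
      by_cases hr : r' = r
      · simp [hr]
      · simp [hr]
        rfl
  · intro j r
    rw [tuningW_iff]
    intro r'
    refine ⟨0, (LamW F).zero_mem, if r' = r then Pi.single j 1 else 0, fun i => ⟨?_, ?_⟩⟩
    · rw [Pi.single_apply, if_neg (by simp)]
      simp
    · rw [hlin, Pi.single_apply]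
      by_cases hr : r' = r
      · by_cases hi : i = j
        · simp [hr, hi]
        · simp [hr, hi]
      · simp [hr]

theorem v27W_eq (N : ℕ) (F : ℕ →₀ K) : v27W N F = ((27 * N * vW F : ℕ) : ℕ∞) := by
  obtain ⟨b⟩ := free_rank F
  rw [v27W_eq_mul, length_free b (LamW F), length_LamW]
  push_cast
  ring

end Pool.Agent.Q282.WR
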